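import Mathlib
import Pool.Agent.Lib.MP_994fee_co.Pair.Boxes

/-!
# Boxes inside boxes
-/

set_option autoImplicit false

namespace Pool.Agent.Lib.MP_994fee_co.Two

open Finset Pool.Agent.Lib.MP_994fee_co.Pair

/-- `r` sets of colourings of a block of at most `n` vertices which contain no box with sides of
length `k` do not cover a box with sides of length `k'`. -/
def CovIn (V : Type) [Fintype V] [DecidableEq V] (n q k' k r : ℕ) : Prop :=
  ∀ B : Finset V, B.card ≤ n → ∀ L' ∈ Boxes B q k', ∀ R : Finset (V → ℕ), R.card ≤ r →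
    ∀ b : (V → ℕ) → Set (V → ℕ), (∀ κ ∈ R, ∀ L ∈ Boxes B q k, ∃ a ∈ L, a ∉ b κ) →
      ∃ γ ∈ L', ∀ κ ∈ R, γ ∉ b κ

lemma covIn_ramsey (n k r : ℕ) (hk : 1 ≤ k) : ∃ K : ℕ, 1 ≤ K ∧ ∀ k' : ℕ, K ≤ k' →
    ∀ (q : ℕ) (V : Type) [Fintype V] [DecidableEq V], CovIn V n q k' k r := by
  obtain ⟨K, hK, hR⟩ := TL.boxRamsey r k hk n
  refine ⟨K, hK, fun k' hk' q V _ _ B hB L' hL' R hRr b hb => ?_⟩
  by_contra hcon
  push Not at hcon
  classical
  obtain ⟨σ, hσ, hσq, rfl⟩ := hL'
  have hc : ∀ x : V → Fin k', ∃ κ : R, pt B σ x ∈ b κ := by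
    intro x
    obtain ⟨κ, hκ, h⟩ := hcon (pt B σ x) (Finset.mem_image_of_mem _ (Finset.mem_univ x))
    exact ⟨⟨κ, hκ⟩, h⟩
  choose ch hch using hc
  let z : (V → Fin K) → (V → Fin k') := fun y v =>
    if v ∈ B then Fin.castLE hk' (y v) else Fin.castLE hk' ⟨0, hK⟩
  obtain ⟨η, κ, hη, hκ⟩ := hR B hB (ι := R) (by rw [Fintype.card_coe]; exact hRr)
    (fun y => ch (z y)) (by
      intro y y' hyy
      have : z y = z y' := by
        funext v
        simp only [z]
        split_ifs with h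
        · rw [hyy v h]
        · rfl
      simp only [this])
  obtain ⟨a, ha, hab⟩ := hb κ κ.2
    (Finset.univ.image (pt B (fun v j => σ v (Fin.castLE hk' (η v j)))))
    ⟨fun v j => σ v (Fin.castLE hk' (η v j)),
      fun v j j' h => hη v (Fin.castLE_injective hk' (hσ v h)), fun v j => hσq v _, rfl⟩
  obtain ⟨x, _, rfl⟩ := Finset.mem_image.1 ha
  apply hab
  have h1 := hch (z (fun v => η v (x v)))
  rw [hκ x] at h1
  have h2 : pt B σ (z (fun v => η v (x v))) =
      pt B (fun v j => σ v (Fin.castLE hk' (η v j))) x := by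
    funext v
    simp only [pt, z]
    split_ifs with h
    · rfl
    · rfl
  rw [← h2]
  exact h1

lemma covIn_one {k r k' : ℕ} (q : ℕ) (hk : 1 ≤ k) (h : (k - 1) * r < k') (V : Type) [Fintype V]
    [DecidableEq V] : CovIn V 1 q k' k r := by
  classical
  intro B hB L' hL' R hR b hb
  by_contra hcon
  push Not at hcon
  obtain ⟨σ, hσ, hσq, rfl⟩ := hL'
  have hk' : 0 < k' := lt_of_le_of_lt (Nat.zero_le _) h
  let sg : Fin k' → V → ℕ := fun j => pt B σ (fun _ => j)
  have h1 : ∀ κ ∈ R, ((Finset.univ : Finset (Fin k')).filter (fun j => sg j ∈ b κ)).card ≤ k - 1 := by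
    intro κ hκ
    by_contra h2
    have h3 : k ≤ ((Finset.univ : Finset (Fin k')).filter (fun j => sg j ∈ b κ)).card := by omega
    obtain ⟨T, hT, hTc⟩ := Finset.exists_subset_card_eq h3
    let e := T.orderIsoOfFin hTc
    have he : ∀ i, sg (e i) ∈ b κ := fun i => (Finset.mem_filter.1 (hT (e i).2)).2
    obtain ⟨a, ha, hab⟩ := hb κ hκ (Finset.univ.image (pt B (fun v i => σ v (e i : Fin k'))))
      ⟨fun v i => σ v (e i : Fin k'), fun v i i' hii =>
        e.injective (Subtype.ext (hσ v hii)), fun v i => hσq v _, rfl⟩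
    obtain ⟨x, _, rfl⟩ := Finset.mem_image.1 ha
    apply hab
    have h4 : ∃ i : Fin k, pt B (fun v i => σ v (e i : Fin k')) x = sg (e i) := by
      by_cases hBe : B = ∅
      · refine ⟨⟨0, hk⟩, ?_⟩
        funext v
        simp only [pt, sg, hBe, Finset.notMem_empty, if_false]
      · obtain ⟨v0, hv0⟩ := Finset.nonempty_iff_ne_empty.2 hBe
        refine ⟨x v0, ?_⟩
        funext v
        by_cases hv : v ∈ B
        · have : v = v0 := Finset.card_le_one.1 hB v hv v0 hv0
          subst this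
          simp only [pt, sg, hv, if_true]
        · simp only [pt, sg, hv, if_false]
    obtain ⟨i, hi⟩ := h4
    rw [hi]
    exact he i
  have h2 : (Finset.univ : Finset (Fin k')) ⊆
      R.biUnion (fun κ => (Finset.univ : Finset (Fin k')).filter (fun j => sg j ∈ b κ)) := by
    intro j _
    obtain ⟨κ, hκ, h⟩ := hcon (sg j) (Finset.mem_image_of_mem _ (Finset.mem_univ _))
    exact Finset.mem_biUnion.2 ⟨κ, hκ, Finset.mem_filter.2 ⟨Finset.mem_univ j, h⟩⟩
  have h3 := Finset.card_le_card h2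
  have h4 : (R.biUnion (fun κ => (Finset.univ : Finset (Fin k')).filter
      (fun j => sg j ∈ b κ))).card ≤ (k - 1) * r :=
    calc (R.biUnion (fun κ => (Finset.univ : Finset (Fin k')).filter
          (fun j => sg j ∈ b κ))).card
        ≤ ∑ κ ∈ R, ((Finset.univ : Finset (Fin k')).filter (fun j => sg j ∈ b κ)).card :=
          Finset.card_biUnion_le
      _ ≤ ∑ _κ ∈ R, (k - 1) := Finset.sum_le_sum h1
      _ = R.card * (k - 1) := by rw [Finset.sum_const, smul_eq_mul]
      _ ≤ r * (k - 1) := Nat.mul_le_mul_right _ hR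
      _ = (k - 1) * r := mul_comm _ _
  rw [Finset.card_univ, Fintype.card_fin] at h3
  omega

end Pool.Agent.Lib.MP_994fee_co.Two
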