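import Mathlib

/-!
# Ordered forests and schedules

The blocks of a graph are worked through in the post-order of an ordered forest.
-/

set_option autoImplicit false

namespace Pool.Agent.Lib.MP_994fee_co.Two

open Finset

/-- Ordered forests: `cons x b t` is a tree with root `x` and the forest `b` below it, followed by
the forest `t`. -/
inductive Forest where
  | nil : Forest
  | cons (x : ℕ) (b t : Forest) : Forest

/-- The labels in post-order. -/
def Forest.flat : Forest → List ℕ
  | .nil => []
  | .cons x b t => b.flat ++ x :: t.flat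

/-- The labels which are not roots. -/
def Forest.deep : Forest → Finset ℕ
  | .nil => ∅
  | .cons _ b t => b.flat.toFinset ∪ t.deep

/-- The forest is a schedule: `Done` are the finished blocks, and the worlds in progress differ on
the blocks of `D`. -/
def Ok (P : ℕ → Finset ℕ) : Forest → Finset ℕ → Finset ℕ → Prop
  | .nil, _, _ => True
  | .cons x b t, Done, D =>
      x ∉ Done ∧ (∀ v ∈ Done, x ∉ P v) ∧
      (∀ p ∈ P x, ∀ p' ∈ P x, p ∈ Done → p' ∈ Done → p = p') ∧
      (∀ p ∈ P x, p ∈ Done → p ∉ D ∧ p ∉ b.flat ∧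
        ∀ y, (y ∈ P p ∨ p ∈ P y) → y ∉ D ∧ y ∉ b.flat) ∧
      (∀ y ∈ b.deep, x ∉ P y) ∧ (∀ y ∈ b.flat, y ∉ P x) ∧ x ∉ b.flat ∧
      Ok P b Done {x} ∧ Ok P t (insert x (Done ∪ b.flat.toFinset)) (D ∪ b.flat.toFinset)

end Pool.Agent.Lib.MP_994fee_co.Two
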