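import Mathlib
import Pool.Agent.Lib.MP_994fee_co.Two.Defs

/-!
# The recursion over an ordered forest
-/

set_option autoImplicit false

namespace Pool.Agent.Lib.MP_994fee_co.Two

open Finset Function

lemma Forest.deep_subset : ∀ (F : Forest) (y : ℕ), y ∈ F.deep → y ∈ F.flat
  | .nil, y, h => absurd h (Finset.notMem_empty y)
  | .cons x b t, y, h => by
      rw [Forest.deep, Finset.mem_union, List.mem_toFinset] at h
      rw [Forest.flat, List.mem_append, List.mem_cons]
      rcases h with h | h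
      · exact Or.inl h
      · exact Or.inr (Or.inr (Forest.deep_subset t y h))

lemma Ok.notMem {P : ℕ → Finset ℕ} : ∀ (F : Forest) (Done D : Finset ℕ), Ok P F Done D →
    ∀ y ∈ F.flat, y ∉ Done
  | .nil, _, _, _, y, hy => by simp [Forest.flat] at hy
  | .cons x b t, Done, D, h, y, hy => by
      obtain ⟨h1, _, _, _, _, _, _, h8, h9⟩ := h
      rw [Forest.flat, List.mem_append, List.mem_cons] at hy
      rcases hy with hy | hy | hy
      · exact Ok.notMem b Done {x} h8 y hy
      · rw [hy]; exact h1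
      · have := Ok.notMem t _ _ h9 y hy
        intro hd
        exact this (Finset.mem_insert_of_mem (Finset.mem_union_left _ hd))

section Safe

variable {C : Type} (P : ℕ → Finset ℕ) (BX' : ℕ → Set (Finset C)) (bad : ℕ → (ℕ → C) → Prop)

/-- The finished block `v` is safe in the world `W` when the blocks of the list are still to be
finished (in this order): for its unfinished children there is always a box of good colours. -/
def Safe (v : ℕ) : List ℕ → (ℕ → C) → Prop
  | [], W => ¬ bad v W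
  | z :: r, W => (v ∈ P z → ∃ L ∈ BX' z, ∀ c ∈ L, Safe v r (update W z c)) ∧
      (v ∉ P z → Safe v r W)

variable {P BX' bad}

lemma safe_congr (hirr : ∀ v, v ∉ P v)
    (hbad : ∀ v W W', W v = W' v → (∀ y, (y ∈ P v ∨ v ∈ P y) → W y = W' y) → bad v W → bad v W')
    {v : ℕ} : ∀ (r : List ℕ) (W W' : ℕ → C), W v = W' v →
      (∀ y, (y ∈ P v ∨ v ∈ P y) → (W y = W' y ∨ (v ∈ P y ∧ y ∈ r))) →
      Safe P BX' bad v r W → Safe P BX' bad v r W' := by
  intro r
  induction r with
  | nil =>
    intro W W' h1 h2 h h'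
    refine h (hbad v W' W h1.symm (fun y hy => ?_) h')
    rcases h2 y hy with h3 | ⟨_, h3⟩
    · exact h3.symm
    · exact absurd h3 List.not_mem_nil
  | cons z r ih =>
    intro W W' h1 h2 h
    rw [Safe] at h ⊢
    refine ⟨fun hvz => ?_, fun hvz => ?_⟩
    · obtain ⟨L, hL, hc⟩ := h.1 hvz
      refine ⟨L, hL, fun c hcL => ih _ _ ?_ ?_ (hc c hcL)⟩
      · have : v ≠ z := fun h' => hirr z (h' ▸ hvz)
        rw [update_of_ne this, update_of_ne this, h1]
      · intro y hy
        by_cases hyz : y = z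
        · left
          rw [hyz, update_self, update_self]
        · rw [update_of_ne hyz, update_of_ne hyz]
          rcases h2 y hy with h3 | ⟨h3, h4⟩
          · exact Or.inl h3
          · rcases List.mem_cons.1 h4 with h4 | h4
            · exact absurd h4 hyz
            · exact Or.inr ⟨h3, h4⟩
    · refine ih _ _ h1 (fun y hy => ?_) (h.2 hvz)
      rcases h2 y hy with h3 | ⟨h3, h4⟩
      · exact Or.inl h3
      · rcases List.mem_cons.1 h4 with h4 | h4
        · exact absurd (h4 ▸ h3) hvz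
        · exact Or.inr ⟨h3, h4⟩

lemma safe_skip {v : ℕ} (W : ℕ → C) (r : List ℕ) : ∀ l : List ℕ, (∀ z ∈ l, v ∉ P z) →
    Safe P BX' bad v (l ++ r) W → Safe P BX' bad v r W := by
  intro l
  induction l with
  | nil => intro _ h; exact h
  | cons z l ih =>
    intro h1 h
    rw [List.cons_append, Safe] at h
    exact ih (fun y hy => h1 y (List.mem_cons_of_mem _ hy)) (h.2 (h1 z List.mem_cons_self))

/-- **Preferences.** Every box of colours of `v` contains a safe colour. -/
lemma exists_safe (hirr : ∀ v, v ∉ P v) {BX : ℕ → Set (Finset C)} {m : ℕ}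
    (hm : ∀ v, ∀ L ∈ BX v, L.card ≤ m)
    (h1 : ∀ v, ∀ L ∈ BX v, ∀ W, ∃ a ∈ L, ¬ bad v (update W v a))
    (h3 : ∀ z, ∀ R : Finset C, R.card ≤ m → ∀ b : C → Set C,
      (∀ κ ∈ R, ∀ L ∈ BX' z, ∃ c ∈ L, c ∉ b κ) → ∃ c, ∀ κ ∈ R, c ∉ b κ)
    {v : ℕ} {L : Finset C} (hL : L ∈ BX v) : ∀ (r : List ℕ) (W : ℕ → C),
      ∃ a ∈ L, Safe P BX' bad v r (update W v a) := by
  intro r
  induction r with
  | nil => intro W; exact h1 v L hL W
  | cons z r ih =>
    intro W
    by_cases hvz : v ∈ P z
    · by_contra hcon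
      have hne : z ≠ v := fun h' => hirr z (h'.symm ▸ hvz)
      obtain ⟨c, hc⟩ := h3 z L (hm v L hL)
        (fun a => {c | Safe P BX' bad v r (update (update W v a) z c)}) (by
          intro a ha L' hL'
          by_contra h4
          apply hcon
          refine ⟨a, ha, ?_⟩
          rw [Safe]
          refine ⟨fun _ => ⟨L', hL', fun c hc => ?_⟩, fun h => absurd hvz h⟩
          by_contra h5
          exact h4 ⟨c, hc, h5⟩)
      obtain ⟨a, ha, hs⟩ := ih (update W z c)
      apply hc a ha
      show Safe P BX' bad v r (update (update W v a) z c)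
      rw [update_comm hne.symm]
      exact hs
    · obtain ⟨a, ha, hs⟩ := ih W
      refine ⟨a, ha, ?_⟩
      rw [Safe]
      exact ⟨fun h => absurd h hvz, fun _ => hs⟩

/-- **The recursion.** `A` is a small family of worlds which differ only on `D`. The blocks of the
forest get colours, such that the roots of the forest have the same colour in all worlds of the
family, and everything finished stays safe. -/
theorem core (hirr : ∀ v, v ∉ P v)
    (hbad : ∀ v W W', W v = W' v → (∀ y, (y ∈ P v ∨ v ∈ P y) → W y = W' y) → bad v W → bad v W')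
    {BX : ℕ → Set (Finset C)} {m : ℕ} (hm : ∀ v, ∀ L ∈ BX v, L.card ≤ m)
    (h1 : ∀ v, ∀ L ∈ BX v, ∀ W, ∃ a ∈ L, ¬ bad v (update W v a))
    (h3 : ∀ z, ∀ R : Finset C, R.card ≤ m → ∀ b : C → Set C,
      (∀ κ ∈ R, ∀ L ∈ BX' z, ∃ c ∈ L, c ∉ b κ) → ∃ c, ∀ κ ∈ R, c ∉ b κ)
    (h2 : ∀ z, ∀ L' ∈ BX' z, ∀ R : Finset C, R.card ≤ m → ∀ b : C → Set C,
      (∀ κ ∈ R, ∀ L ∈ BX z, ∃ c ∈ L, c ∉ b κ) → ∃ c ∈ L', ∀ κ ∈ R, c ∉ b κ)
    (hne : ∀ z, (BX' z).Nonempty) :
    ∀ (F : Forest) (Done D : Finset ℕ) (rest : List ℕ) (A : Finset C) (W : C → ℕ → C),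
      Ok P F Done D → A.card ≤ m → (∀ κ ∈ A, ∀ κ' ∈ A, ∀ y, y ∉ D → W κ y = W κ' y) →
      (∀ κ ∈ A, ∀ v ∈ Done, Safe P BX' bad v (F.flat ++ rest) (W κ)) →
      ∃ W' : C → ℕ → C, (∀ κ ∈ A, ∀ y, y ∉ F.flat → W' κ y = W κ y) ∧
        (∀ κ ∈ A, ∀ κ' ∈ A, ∀ y, y ∉ D → y ∉ F.deep → W' κ y = W' κ' y) ∧
        (∀ κ ∈ A, ∀ v, (v ∈ Done ∨ v ∈ F.flat) → Safe P BX' bad v rest (W' κ)) ∧
        (∀ κ ∈ A, ∀ v ∈ F.flat, ∃ L ∈ BX v, W' κ v ∈ L) := by
  classical
  intro F
  induction F with
  | nil =>
    intro Done D rest A W _ _ hW hS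
    refine ⟨W, fun _ _ _ _ => rfl, fun κ hκ κ' hκ' y hy _ => hW κ hκ κ' hκ' y hy, ?_, ?_⟩
    · intro κ hκ v hv
      rcases hv with hv | hv
      · exact hS κ hκ v hv
      · exact absurd hv List.not_mem_nil
    · intro κ _ v hv
      exact absurd hv List.not_mem_nil
  | cons x b t ihb iht =>
    intro Done D rest A W hOk hA hW hS
    obtain ⟨c1, c2, c3, c4, c5, c6, c7, c8, c9⟩ := hOk
    have hflat : (Forest.cons x b t).flat ++ rest = b.flat ++ x :: (t.flat ++ rest) := by
      rw [Forest.flat, List.append_assoc, List.cons_append]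
    rw [hflat] at hS
    -- the colours which can be given to `x` in the world `κ`
    let Good : C → C → Prop := fun κ a => ∃ W'' : ℕ → C, W'' x = a ∧
      (∀ y, y ∉ b.flat → y ≠ x → W'' y = W κ y) ∧ Safe P BX' bad x (t.flat ++ rest) W'' ∧
      (∀ v, (v ∈ Done ∨ v ∈ b.flat) → Safe P BX' bad v (x :: (t.flat ++ rest)) W'') ∧
      (∀ v ∈ b.flat, ∃ L ∈ BX v, W'' v ∈ L) ∧ ∃ L ∈ BX x, a ∈ L
    have hGood : ∀ κ ∈ A, ∀ L ∈ BX x, ∃ a ∈ L, Good κ a := by
      intro κ hκ L hL
      obtain ⟨W1, e1, e2, e3, e4⟩ := ihb Done {x} (x :: (t.flat ++ rest)) L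
        (fun c => update (W κ) x c) c8 (hm x L hL)
        (by
          intro c _ c' _ y hy
          have hyx : y ≠ x := fun h => hy (Finset.mem_singleton.2 h)
          simp only [update_of_ne hyx])
        (by
          intro c _ v hv
          have hvx : v ≠ x := fun h => c1 (h ▸ hv)
          refine safe_congr hirr hbad _ _ _ ?_ ?_ (hS κ hκ v hv)
          · rw [update_of_ne hvx]
          · intro y hy
            by_cases hyx : y = x
            · rw [hyx] at hy ⊢
              rcases hy with hy | hy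
              · exact absurd hy (c2 v hv)
              · right
                exact ⟨hy, by simp⟩
            · left
              rw [update_of_ne hyx])
      obtain ⟨c0, hc0, _⟩ := h1 x L hL (W κ)
      obtain ⟨a, ha, hs⟩ := exists_safe hirr hm h1 h3 hL (t.flat ++ rest) (W1 c0)
      have hax : W1 a x = a := by rw [e1 a ha x c7, update_self]
      refine ⟨a, ha, W1 a, hax, ?_, ?_, e3 a ha, e4 a ha, L, hL, ha⟩
      · intro y hy hyx
        rw [e1 a ha y hy, update_of_ne hyx]
      · refine safe_congr hirr hbad _ _ _ ?_ ?_ hs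
        · rw [update_self, hax]
        · intro y hy
          left
          have hyx : y ≠ x := by
            rintro rfl
            rcases hy with hy | hy <;> exact hirr _ hy
          have hyd : y ∉ b.deep := by
            intro h
            rcases hy with hy | hy
            · exact c6 y (b.deep_subset y h) hy
            · exact c5 y h hy
          rw [update_of_ne hyx]
          exact e2 c0 hc0 a ha y (fun h => hyx (Finset.mem_singleton.1 h)) hyd
    -- the common colour
    obtain ⟨a, haG, hap⟩ : ∃ a, (∀ κ ∈ A, Good κ a) ∧ ∀ p ∈ P x, p ∈ Done → ∀ κ ∈ A,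
        Safe P BX' bad p (t.flat ++ rest) (update (W κ) x a) := by
      by_cases hp : (∃ p ∈ P x, p ∈ Done) ∧ A.Nonempty
      · obtain ⟨⟨p, hpx, hpd⟩, κ0, hκ0⟩ := hp
        obtain ⟨hpD, hpb, hpn⟩ := c4 p hpx hpd
        have h5 := safe_skip (W κ0) _ b.flat (fun z hz h => (hpn z (Or.inr h)).2 hz)
          (hS κ0 hκ0 p hpd)
        rw [Safe] at h5
        obtain ⟨L', hL', h6⟩ := h5.1 hpx
        obtain ⟨a, haL, ha⟩ := h2 x L' hL' A hA (fun κ => {a | ¬ Good κ a}) (by
          intro κ hκ L hL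
          obtain ⟨a, ha, hg⟩ := hGood κ hκ L hL
          exact ⟨a, ha, fun h => h hg⟩)
        refine ⟨a, fun κ hκ => ?_, fun p' hp'x hp'd κ hκ => ?_⟩
        · by_contra h
          exact ha κ hκ h
        · rw [← c3 p hpx p' hp'x hpd hp'd]
          have hpx' : p ≠ x := fun h => hirr x (h ▸ hpx)
          refine safe_congr hirr hbad _ _ _ ?_ ?_ (h6 a haL)
          · rw [update_of_ne hpx', update_of_ne hpx']
            exact hW κ0 hκ0 κ hκ p hpD
          · intro y hy
            left
            by_cases hyx : y = x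
            · rw [hyx, update_self, update_self]
            · rw [update_of_ne hyx, update_of_ne hyx]
              exact hW κ0 hκ0 κ hκ y (hpn y hy).1
      · obtain ⟨L', hL'⟩ := hne x
        obtain ⟨a, haL, ha⟩ := h2 x L' hL' A hA (fun κ => {a | ¬ Good κ a}) (by
          intro κ hκ L hL
          obtain ⟨a, ha, hg⟩ := hGood κ hκ L hL
          exact ⟨a, ha, fun h => h hg⟩)
        refine ⟨a, fun κ hκ => ?_, fun p' hp'x hp'd κ hκ => ?_⟩
        · by_contra h
          exact ha κ hκ h
        · exact absurd ⟨⟨p', hp'x, hp'd⟩, κ, hκ⟩ hp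
    have hW2 : ∀ κ, ∃ W'' : ℕ → C, κ ∈ A → W'' x = a ∧
      (∀ y, y ∉ b.flat → y ≠ x → W'' y = W κ y) ∧ Safe P BX' bad x (t.flat ++ rest) W'' ∧
      (∀ v, (v ∈ Done ∨ v ∈ b.flat) → Safe P BX' bad v (x :: (t.flat ++ rest)) W'') ∧
      (∀ v ∈ b.flat, ∃ L ∈ BX v, W'' v ∈ L) ∧ ∃ L ∈ BX x, a ∈ L := by
      intro κ
      by_cases hκ : κ ∈ A
      · obtain ⟨W'', h⟩ := haG κ hκ
        exact ⟨W'', fun _ => h⟩
      · exact ⟨fun _ => a, fun h => absurd h hκ⟩
    choose W2 hW2 using hW2
    obtain ⟨W', f1, f2, f3, f4⟩ := iht (insert x (Done ∪ b.flat.toFinset))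
      (D ∪ b.flat.toFinset) rest A W2 c9 hA
      (by
        intro κ hκ κ' hκ' y hy
        rw [Finset.mem_union, List.mem_toFinset, not_or] at hy
        by_cases hyx : y = x
        · rw [hyx, (hW2 κ hκ).1, (hW2 κ' hκ').1]
        · rw [(hW2 κ hκ).2.1 y hy.2 hyx, (hW2 κ' hκ').2.1 y hy.2 hyx]
          exact hW κ hκ κ' hκ' y hy.1)
      (by
        intro κ hκ v hv
        obtain ⟨g1, g2, g3, g4, g5, g6⟩ := hW2 κ hκ
        rw [Finset.mem_insert, Finset.mem_union, List.mem_toFinset] at hv
        rcases hv with hv | hv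
        · rw [hv]; exact g3
        · by_cases hvx : v ∈ P x
          · have hvb : v ∉ b.flat := fun h => c6 v h hvx
            have hvd : v ∈ Done := hv.resolve_right hvb
            obtain ⟨hpD, hpb, hpn⟩ := c4 v hvx hvd
            have hvx' : v ≠ x := fun h => hirr x (h ▸ hvx)
            refine safe_congr hirr hbad _ _ _ ?_ ?_ (hap v hvx hvd κ hκ)
            · rw [update_of_ne hvx', g2 v hvb hvx']
            · intro y hy
              left
              by_cases hyx : y = x
              · rw [hyx, update_self, g1]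
              · rw [update_of_ne hyx, g2 y (hpn y hy).2 hyx]
          · have := g4 v hv
            rw [Safe] at this
            exact this.2 hvx)
    have hdisj := Ok.notMem t _ _ c9
    refine ⟨W', ?_, ?_, ?_, ?_⟩
    · intro κ hκ y hy
      rw [Forest.flat, List.mem_append, List.mem_cons, not_or, not_or] at hy
      rw [f1 κ hκ y hy.2.2, (hW2 κ hκ).2.1 y hy.1 hy.2.1]
    · intro κ hκ κ' hκ' y hyD hyd
      rw [Forest.deep, Finset.mem_union, List.mem_toFinset, not_or] at hyd
      refine f2 κ hκ κ' hκ' y ?_ hyd.2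
      rw [Finset.mem_union, List.mem_toFinset, not_or]
      exact ⟨hyD, hyd.1⟩
    · intro κ hκ v hv
      apply f3 κ hκ v
      rw [Forest.flat, List.mem_append, List.mem_cons] at hv
      rw [Finset.mem_insert, Finset.mem_union, List.mem_toFinset]
      tauto
    · intro κ hκ v hv
      rw [Forest.flat, List.mem_append, List.mem_cons] at hv
      obtain ⟨g1, g2, g3, g4, g5, g6⟩ := hW2 κ hκ
      rcases hv with hv | hv | hv
      · have hvt : v ∉ t.flat := fun h => hdisj v h
          (Finset.mem_insert_of_mem (Finset.mem_union_right _ (List.mem_toFinset.2 hv)))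
        rw [f1 κ hκ v hvt]
        exact g5 v hv
      · have hvt : v ∉ t.flat := fun h => hdisj v h (by rw [hv]; exact Finset.mem_insert_self _ _)
        rw [f1 κ hκ v hvt, hv, g1]
        exact g6
      · exact f4 κ hκ v hv

end Safe

end Pool.Agent.Lib.MP_994fee_co.Two
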