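import Mathlib
import Pool.Agent.Lib.MP_994fee_co.Two.Core
import Pool.Agent.Lib.MP_994fee_co.Two.Boxes

/-!
# Hat guessing on scheduled systems of blocks
-/

set_option autoImplicit false

namespace Pool.Agent.Lib.MP_994fee_co.Two

open Finset Pool.Agent.Lib.MP_994fee_co.Pair

theorem hats {V : Type} [Fintype V] [DecidableEq V] (n s q k k' m : ℕ) (hk : n * s + 1 ≤ k)
    (hm : m = k ^ n) (hc1 : CovIn V n q k' k m) (hc2 : CovIn V n q q k' m) (hkq : k' ≤ q)
    (G : SimpleGraph V) (X : Finset V) (β : V → ℕ) (P : ℕ → Finset ℕ) (hirr : ∀ i, i ∉ P i)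
    (hB : ∀ i, (X.filter (fun v => β v = i)).card ≤ n)
    (hadj : ∀ v ∈ X, ∀ w ∈ X, G.Adj v w → β v = β w ∨ β w ∈ P (β v) ∨ β v ∈ P (β w))
    (F : Forest) (hF : ∀ v ∈ X, β v ∈ F.flat) (hOk : Ok P F ∅ ∅)
    (g : V → (V → ℕ) → Finset ℕ)
    (hg : ∀ v ∈ X, ∀ c c' : V → ℕ, (∀ u ∈ X, G.Adj v u → c u = c' u) → g v c = g v c')
    (hgs : ∀ v ∈ X, ∀ c, (g v c).card ≤ s) :
    ∃ c : V → ℕ, ∀ v ∈ X, c v < q ∧ c v ∉ g v c := by
  classical
  have hk1 : 1 ≤ k := by omega
  have hm1 : 1 ≤ m := by rw [hm]; exact Nat.one_le_pow _ _ hk1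
  let bad : ℕ → (ℕ → V → ℕ) → Prop := fun i W =>
    ∃ v ∈ X, β v = i ∧ W i v ∈ g v (fun u => W (β u) u)
  obtain ⟨W', _, _, h5, h6⟩ := core (C := V → ℕ) (P := P)
    (BX' := fun i => Boxes (X.filter (fun v => β v = i)) q k') (bad := bad) hirr
    (by
      rintro i W W' hW hn ⟨v, hv, hvi, hb⟩
      refine ⟨v, hv, hvi, ?_⟩
      have : g v (fun u => W' (β u) u) = g v (fun u => W (β u) u) := by
        apply hg v hv
        intro u hu hvu
        rcases hadj v hv u hu hvu with h | h | h
        · rw [← h, hvi, hW]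
        · rw [hn (β u) (Or.inl (hvi ▸ h))]
        · rw [hn (β u) (Or.inr (hvi ▸ h))]
      rw [this, ← hW]
      exact hb)
    (BX := fun i => Boxes (X.filter (fun v => β v = i)) q k) (m := m)
    (fun i L hL => by rw [hm]; exact boxes_card (hB i) hk1 hL)
    (by
      intro i L hL W
      obtain ⟨σ, hσ, _, rfl⟩ := hL
      let Bi : Finset V := X.filter (fun v => β v = i)
      let vw : (V → ℕ) → (V → ℕ) := fun a u => Function.update W i a (β u) u
      let h : V → (V → Fin k) → Finset (Fin k) := fun v x =>
        Finset.univ.filter (fun j : Fin k => σ v j ∈ g v (vw (pt Bi σ x)))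
      obtain ⟨x, hx⟩ : ∃ x : V → Fin k, ∀ v ∈ Bi, x v ∉ h v x := by
        by_contra hcon
        push Not at hcon
        have h1 : (Finset.univ : Finset (V → Fin k)) ⊆
            Bi.biUnion (fun v => Finset.univ.filter (fun x => x v ∈ h v x)) := by
          intro x _
          obtain ⟨v, hv, hvx⟩ := hcon x
          exact Finset.mem_biUnion.2 ⟨v, hv, Finset.mem_filter.2 ⟨Finset.mem_univ _, hvx⟩⟩
        have h2 : ∀ v ∈ Bi, k * ((Finset.univ : Finset (V → Fin k)).filter
            (fun x => x v ∈ h v x)).card ≤ s * (Finset.univ : Finset (V → Fin k)).card := by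
          intro v hv
          have hvX : v ∈ X := (Finset.mem_filter.1 hv).1
          have hvi : β v = i := (Finset.mem_filter.1 hv).2
          apply PW.fibre v Finset.univ (h v)
          · intro c a _
            exact Finset.mem_univ _
          · intro c a
            have : g v (vw (pt Bi σ (Function.update c v a))) = g v (vw (pt Bi σ c)) := by
              apply hg v hvX
              intro u _ huv
              have hne : u ≠ v := fun h => G.ne_of_adj huv h.symm
              simp only [vw]
              by_cases hui : β u = i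
              · rw [hui, Function.update_self, Function.update_self]
                simp only [pt, Function.update_of_ne hne]
              · rw [Function.update_of_ne hui, Function.update_of_ne hui]
            simp only [h, this]
          · intro c
            refine le_trans ?_ (hgs v hvX (vw (pt Bi σ c)))
            refine Finset.card_le_card_of_injOn (fun j => σ v j) ?_ ?_
            · intro j hj
              exact Finset.mem_coe.2 (Finset.mem_filter.1 (Finset.mem_coe.1 hj)).2
            · intro j _ j' _ hjj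
              exact hσ v hjj
        have h3 : k * (Finset.univ : Finset (V → Fin k)).card ≤
            n * s * (Finset.univ : Finset (V → Fin k)).card := by
          calc k * (Finset.univ : Finset (V → Fin k)).card
              ≤ k * (Bi.biUnion (fun v => Finset.univ.filter (fun x => x v ∈ h v x))).card :=
                Nat.mul_le_mul_left _ (Finset.card_le_card h1)
            _ ≤ k * ∑ v ∈ Bi, ((Finset.univ : Finset (V → Fin k)).filter
                (fun x => x v ∈ h v x)).card := Nat.mul_le_mul_left _ Finset.card_biUnion_le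
            _ = ∑ v ∈ Bi, k * ((Finset.univ : Finset (V → Fin k)).filter
                (fun x => x v ∈ h v x)).card := Finset.mul_sum _ _ _
            _ ≤ ∑ _v ∈ Bi, s * (Finset.univ : Finset (V → Fin k)).card :=
                Finset.sum_le_sum h2
            _ = Bi.card * (s * (Finset.univ : Finset (V → Fin k)).card) := by
                rw [Finset.sum_const, smul_eq_mul]
            _ ≤ n * (s * (Finset.univ : Finset (V → Fin k)).card) :=
                Nat.mul_le_mul_right _ (hB i)
            _ = n * s * (Finset.univ : Finset (V → Fin k)).card := by ring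
        have h4 : 0 < (Finset.univ : Finset (V → Fin k)).card :=
          Finset.card_pos.2 ⟨fun _ => ⟨0, hk1⟩, Finset.mem_univ _⟩
        have h5 := Nat.le_of_mul_le_mul_right h3 h4
        omega
      refine ⟨pt Bi σ x, Finset.mem_image_of_mem _ (Finset.mem_univ x), ?_⟩
      rintro ⟨v, hvX, hvi, hv⟩
      have hvB : v ∈ Bi := Finset.mem_filter.2 ⟨hvX, hvi⟩
      apply hx v hvB
      refine Finset.mem_filter.2 ⟨Finset.mem_univ _, ?_⟩
      rw [Function.update_self] at hv
      have : pt Bi σ x v = σ v (x v) := by simp only [pt, hvB, if_true]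
      rw [this] at hv
      exact hv)
    (by
      intro z R hR b hb
      obtain ⟨γ, _, hγ⟩ := hc2 _ (hB z)
        (Finset.univ.image (pt (X.filter (fun v => β v = z)) (fun _ (j : Fin q) => (j : ℕ))))
        ⟨fun _ j => (j : ℕ), fun _ j j' h => Fin.ext h, fun _ j => j.2, rfl⟩ R hR b hb
      exact ⟨γ, hγ⟩)
    (fun z L' hL' R hR b hb => hc1 _ (hB z) L' hL' R hR b hb)
    (fun z => ⟨_, fun _ (j : Fin k') => (j : ℕ), fun _ j j' h => Fin.ext h,
      fun _ j => lt_of_lt_of_le j.2 hkq, rfl⟩)
    F ∅ ∅ [] {fun _ => 0} (fun _ _ => fun _ => 0) hOk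
    (by rw [Finset.card_singleton]; exact hm1)
    (fun _ _ _ _ _ _ => rfl)
    (fun _ _ v hv => absurd hv (Finset.notMem_empty v))
  refine ⟨fun u => W' (fun _ => 0) (β u) u, fun v hv => ⟨?_, fun hb => ?_⟩⟩
  · obtain ⟨L, ⟨σ, _, hσq, hL⟩, hWL⟩ := h6 _ (Finset.mem_singleton_self _) (β v) (hF v hv)
    rw [hL] at hWL
    obtain ⟨x, _, hx⟩ := Finset.mem_image.1 hWL
    show W' (fun _ => 0) (β v) v < q
    rw [← hx]
    have : v ∈ X.filter (fun w => β w = β v) := Finset.mem_filter.2 ⟨hv, rfl⟩
    simp only [pt, this, if_true]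
    exact hσq v _
  · have := h5 _ (Finset.mem_singleton_self _) (β v) (Or.inr (hF v hv))
    rw [Safe] at this
    exact this ⟨v, hv, rfl, hb⟩

end Pool.Agent.Lib.MP_994fee_co.Two
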