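import Pool.Agent.Lib.MP_994fee_co.Gr.Ord
import Pool.Agent.Lib.MP_994fee_co.Two.Defs

/-!
# The order lemma: schedules exist
-/

set_option autoImplicit false

namespace Pool.Agent.Lib.MP_994fee_co.Two

open Finset Function Classical Gr

section

variable {S : Finset ℕ} {P : ℕ → Finset ℕ} {d : Dat {i // i ∈ S}}
  {lp : {i // i ∈ S} → Option {i // i ∈ S}} {L w idx : {i // i ∈ S} → ℕ} {B w₀ : ℕ}

/-- The children of `o` with index `< j` carry a schedule. -/
def Cl (P : ℕ → Finset ℕ) (d : Dat {i // i ∈ S}) (lp : {i // i ∈ S} → Option {i // i ∈ S})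
    (L idx : {i // i ∈ S} → ℕ) (o : Option {i // i ∈ S}) (R0 w' j : ℕ) : Prop :=
  ∃ F : Forest, (∀ v : {i // i ∈ S}, (v : ℕ) ∈ F.flat ↔ ∃ z, lp z = o ∧ idx z < j ∧ In d L z v) ∧
    (∀ v ∈ F.flat, v ∈ S) ∧
    (∀ v : {i // i ∈ S}, (v : ℕ) ∈ F.deep ↔ ∃ z, lp z = o ∧ idx z < j ∧ In d L z v ∧ v ≠ z) ∧
    (∀ v ∈ F.deep, v ∈ S) ∧
    ∀ Done D : Finset ℕ, (∀ v ∈ Done, v ∈ S) →
      (∀ v : {i // i ∈ S}, (v : ℕ) ∈ Done → R0 + j * w' ≤ d.R v) → (∀ v ∈ D, v ∈ S) →
      (∀ v : {i // i ∈ S}, (v : ℕ) ∈ D → ∀ x, o = some x → (In d L x v ∧ lp v ≠ some x)) →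
      Ok P F Done D

lemma clJ (F : Facts d lp L w idx B w₀) (hS : ∀ i, i ∉ S → P i = ∅) (hPS : ∀ i, P i ⊆ S)
    (hdP : ∀ v p : {i // i ∈ S}, p ∈ d.P v ↔ (p : ℕ) ∈ P v) (o : Option {i // i ∈ S}) (R0 w' : ℕ)
    (ho : ∀ z, lp z = o → d.R z = R0 + idx z * w' ∧ L z = w')
    (ih : ∀ z, lp z = o → Cl P d lp L idx (some z) (d.R z) (w z) B) :
    ∀ j, j ≤ B → Cl P d lp L idx o R0 w' j := by
  have hpS : ∀ i, ∀ p ∈ P i, i ∈ S := by
    intro i p hp
    by_contra hi
    rw [hS i hi] at hp
    exact absurd hp (notMem_empty _)
  intro j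
  induction j with
  | zero =>
    intro _
    refine ⟨Forest.nil, ?_, ?_, ?_, ?_, fun _ _ _ _ _ _ => trivial⟩
    · intro v
      simp [Forest.flat]
    · intro v hv
      simp [Forest.flat] at hv
    · intro v
      simp [Forest.deep]
    · intro v hv
      simp [Forest.deep] at hv
  | succ j hj =>
    intro hjB
    obtain ⟨t, t1, t2, t3, t4, t5⟩ := hj (by omega)
    by_cases hex : ∃ z, lp z = o ∧ idx z = j
    · obtain ⟨z, hzo, hzj⟩ := hex
      obtain ⟨b, b1, b2, b3, b4, b5⟩ := ih z hzo
      have e1 := ho z hzo
      have eR : d.R z = R0 + j * w' := by rw [e1.1, hzj]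
      have eT : d.R z + L z = R0 + (j + 1) * w' := by
        rw [eR, e1.2, Nat.add_mul, Nat.one_mul, Nat.add_assoc]
      have eb : d.R z + B * w z = R0 + (j + 1) * w' := by
        rw [← F.Lw z, eT]
      -- the labels of `b`
      have hbf : ∀ v : {i // i ∈ S}, (v : ℕ) ∈ b.flat ↔ In d L z v ∧ v ≠ z := by
        intro v
        rw [b1]
        constructor
        · rintro ⟨z', h1, _, h3⟩
          obtain ⟨h4, h5⟩ := F.In_child h1 h3
          refine ⟨h4, ?_⟩
          rintro rfl
          exact lt_irrefl _ h5
        · rintro ⟨⟨h1, h2⟩, h3⟩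
          have h4 : d.R z < d.R v := by
            rcases Nat.eq_or_lt_of_le h1 with h | h
            · exact absurd (F.inj h).symm h3
            · exact h
          obtain ⟨z', h5, h6⟩ := F.sub z v h4 h2
          exact ⟨z', h5, (F.idx1 z').2, h6⟩
      have hidxz : ∀ z', lp z' = o → idx z' = j → z' = z := by
        intro z' h1 h2
        apply F.inj
        rw [(ho z' h1).1, e1.1, h2, hzj]
      refine ⟨Forest.cons z b t, ?_, ?_, ?_, ?_, ?_⟩
      · intro v
        rw [Forest.flat, List.mem_append, List.mem_cons, hbf v, t1 v]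
        constructor
        · rintro (h | h | ⟨z', h1, h2, h3⟩)
          · exact ⟨z, hzo, by omega, h.1⟩
          · rw [Subtype.ext h]
            exact ⟨z, hzo, by omega, F.In_self z⟩
          · exact ⟨z', h1, by omega, h3⟩
        · rintro ⟨z', h1, h2, h3⟩
          rcases Nat.lt_succ_iff_lt_or_eq.1 h2 with h4 | h4
          · exact Or.inr (Or.inr ⟨z', h1, h4, h3⟩)
          · have := hidxz z' h1 h4
            subst this
            by_cases hv : v = z'
            · exact Or.inr (Or.inl (congrArg Subtype.val hv))
            · exact Or.inl ⟨h3, hv⟩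
      · intro v hv
        rw [Forest.flat, List.mem_append, List.mem_cons] at hv
        rcases hv with h | h | h
        · exact b2 v h
        · rw [h]
          exact z.2
        · exact t2 v h
      · intro v
        rw [Forest.deep, mem_union, List.mem_toFinset, hbf v, t3 v]
        constructor
        · rintro (h | ⟨z', h1, h2, h3, h4⟩)
          · exact ⟨z, hzo, by omega, h.1, h.2⟩
          · exact ⟨z', h1, by omega, h3, h4⟩
        · rintro ⟨z', h1, h2, h3, h4⟩
          rcases Nat.lt_succ_iff_lt_or_eq.1 h2 with h5 | h5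
          · exact Or.inr ⟨z', h1, h5, h3, h4⟩
          · have := hidxz z' h1 h5
            subst this
            exact Or.inl ⟨h3, h4⟩
      · intro v hv
        rw [Forest.deep, mem_union, List.mem_toFinset] at hv
        rcases hv with h | h
        · exact b2 v h
        · exact t4 v h
      · intro Done D hDS hD hDS' hD'
        -- parents of `z` which are finished
        have hpar : ∀ p : {i // i ∈ S}, (p : ℕ) ∈ P z → (p : ℕ) ∈ Done → d.E z p := by
          intro p hp hpD
          refine (F.hE z p).2 ⟨(hdP z p).2 hp, ?_⟩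
          intro hl
          have h1 := hD p hpD
          have h2 := (F.In_child hl (F.In_self z)).2
          rw [eR] at h2
          have h3 : R0 + j * w' ≤ R0 + (j + 1) * w' :=
            Nat.add_le_add_left (Nat.mul_le_mul_right _ (Nat.le_succ j)) _
          omega
        refine ⟨?_, ?_, ?_, ?_, ?_, ?_, ?_, ?_, ?_⟩
        · intro h
          have h1 := hD z h
          have h2 := F.Lpos z
          omega
        · intro v hv hzv
          have hvS := hDS v hv
          have h1 := hD ⟨v, hvS⟩ hv
          have h2 : z ∈ d.P ⟨v, hvS⟩ := (hdP _ _).2 hzv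
          by_cases hl : lp ⟨v, hvS⟩ = some z
          · have h3 := (F.In_child hl (F.In_self _)).1.2
            omega
          · have hE : d.E ⟨v, hvS⟩ z := (F.hE _ _).2 ⟨h2, hl⟩
            cases hlv : lp ⟨v, hvS⟩ with
            | none =>
              rw [F.lpn _ hlv] at h2
              exact absurd h2 (notMem_empty _)
            | some y =>
              have h3 := F.Eout _ z y hE hlv
              have h4 := (F.In_child hlv (F.In_self _)).1.2
              have h5 := F.Lpos z
              omega
        · intro p hp p' hp' hpD hp'D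
          have h1 := hpar ⟨p, hPS _ hp⟩ hp hpD
          have h2 := hpar ⟨p', hPS _ hp'⟩ hp' hp'D
          exact congrArg Subtype.val (F.Eu z _ _ h1 h2)
        · intro p hp hpD
          have hpS' := hPS _ hp
          have hE := hpar ⟨p, hpS'⟩ hp hpD
          cases hlz : lp z with
          | none =>
            have := ((F.hE _ _).1 hE).1
            rw [F.lpn _ hlz] at this
            exact absurd this (notMem_empty _)
          | some x =>
            have hox : o = some x := by rw [← hzo, hlz]
            have key : ∀ u : {i // i ∈ S}, (u = ⟨p, hpS'⟩ ∨ u ∈ d.P ⟨p, hpS'⟩ ∨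
                (⟨p, hpS'⟩ : {i // i ∈ S}) ∈ d.P u) → (u : ℕ) ∉ D ∧ (u : ℕ) ∉ b.flat := by
              intro u hu
              constructor
              · intro huD
                obtain ⟨h1, h2⟩ := hD' u huD x hox
                exact h2 (F.far z _ x u hE hlz hu h1)
              · intro hub
                obtain ⟨h1, h2⟩ := (hbf u).1 hub
                have h3 := (F.In_child hlz h1).1
                have h4 := F.far z _ x u hE hlz hu h3
                exact h2 (F.sep (fun z hz => F.child z x hz) hlz h4 h1)
            refine ⟨(key ⟨p, hpS'⟩ (Or.inl rfl)).1, (key ⟨p, hpS'⟩ (Or.inl rfl)).2, ?_⟩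
            rintro y (hy | hy)
            · exact key ⟨y, hPS _ hy⟩ (Or.inr (Or.inl ((hdP _ _).2 hy)))
            · exact key ⟨y, hpS _ _ hy⟩ (Or.inr (Or.inr ((hdP _ _).2 hy)))
        · intro y hy hzy
          have hyS := b4 y hy
          obtain ⟨z', h1, h2, h3, h4⟩ := (b3 ⟨y, hyS⟩).1 hy
          have h5 : z ∈ d.P ⟨y, hyS⟩ := (hdP _ _).2 hzy
          have h6 := F.In_child h1 h3
          by_cases hl : lp ⟨y, hyS⟩ = some z
          · exact h4 (F.sep (fun z' hz => F.child z' z hz) h1 hl h3)
          · have hE : d.E ⟨y, hyS⟩ z := (F.hE _ _).2 ⟨h5, hl⟩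
            cases hlv : lp ⟨y, hyS⟩ with
            | none =>
              rw [F.lpn _ hlv] at h5
              exact absurd h5 (notMem_empty _)
            | some y' =>
              have h7 := F.Eout _ z y' hE hlv
              have h8 := (F.In_child hlv (F.In_self _)).1.2
              omega
        · intro y hy hyz
          have hyS := b2 y hy
          obtain ⟨h1, h2⟩ := (hbf ⟨y, hyS⟩).1 hy
          exact F.pin z ⟨y, hyS⟩ ((hdP _ _).2 hyz) h1
        · intro h
          exact ((hbf z).1 h).2 rfl
        · refine b5 Done {(z : ℕ)} hDS ?_ ?_ ?_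
          · intro v hv
            rw [eb]
            exact hD v hv
          · intro v hv
            rw [mem_singleton] at hv
            rw [hv]
            exact z.2
          · intro v hv x hx
            rw [mem_singleton] at hv
            simp only [Option.some.injEq] at hx
            subst hx
            have : v = z := Subtype.ext hv
            subst this
            refine ⟨F.In_self v, ?_⟩
            intro h
            have := (F.In_child h (F.In_self v)).2
            exact lt_irrefl _ this
        · refine t5 _ _ ?_ ?_ ?_ ?_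
          · intro v hv
            rw [mem_insert, mem_union, List.mem_toFinset] at hv
            rcases hv with h | h | h
            · rw [h]
              exact z.2
            · exact hDS v h
            · exact b2 v h
          · intro v hv
            rw [mem_insert, mem_union, List.mem_toFinset] at hv
            have h3 : R0 + j * w' ≤ R0 + (j + 1) * w' :=
              Nat.add_le_add_left (Nat.mul_le_mul_right _ (Nat.le_succ j)) _
            rcases hv with h | h | h
            · have : v = z := Subtype.ext h
              rw [this, eR]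
            · have := hD v h
              omega
            · have := ((hbf v).1 h).1.1
              rw [← eR]
              exact this
          · intro v hv
            rw [mem_union, List.mem_toFinset] at hv
            rcases hv with h | h
            · exact hDS' v h
            · exact b2 v h
          · intro v hv x hx
            rw [mem_union, List.mem_toFinset] at hv
            rcases hv with h | h
            · exact hD' v h x hx
            · obtain ⟨h1, h2⟩ := (hbf v).1 h
              have hlz : lp z = some x := by rw [hzo, hx]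
              refine ⟨(F.In_child hlz h1).1, ?_⟩
              intro h3
              exact h2 (F.sep (fun z hz => F.child z x hz) hlz h3 h1)
    · refine ⟨t, ?_, t2, ?_, t4, ?_⟩
      · intro v
        rw [t1 v]
        constructor
        · rintro ⟨z, h1, h2, h3⟩
          exact ⟨z, h1, by omega, h3⟩
        · rintro ⟨z, h1, h2, h3⟩
          refine ⟨z, h1, ?_, h3⟩
          rcases Nat.lt_succ_iff_lt_or_eq.1 h2 with h4 | h4
          · exact h4
          · exact absurd ⟨z, h1, h4⟩ hex
      · intro v
        rw [t3 v]
        constructor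
        · rintro ⟨z, h1, h2, h3⟩
          exact ⟨z, h1, by omega, h3⟩
        · rintro ⟨z, h1, h2, h3⟩
          refine ⟨z, h1, ?_, h3⟩
          rcases Nat.lt_succ_iff_lt_or_eq.1 h2 with h4 | h4
          · exact h4
          · exact absurd ⟨z, h1, h4⟩ hex
      · intro Done D h1 h2 h3 h4
        refine t5 Done D h1 ?_ h3 h4
        intro v hv
        refine le_trans ?_ (h2 v hv)
        exact Nat.add_le_add_left (Nat.mul_le_mul_right _ (Nat.le_succ j)) _

lemma clX (F : Facts d lp L w idx B w₀) (hS : ∀ i, i ∉ S → P i = ∅) (hPS : ∀ i, P i ⊆ S)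
    (hdP : ∀ v p : {i // i ∈ S}, p ∈ d.P v ↔ (p : ℕ) ∈ P v) (hB : 2 ≤ B) (n : ℕ) :
    ∀ x, L x = n → Cl P d lp L idx (some x) (d.R x) (w x) B := by
  induction n using Nat.strong_induction_on with
  | _ n ih =>
    intro x hx
    refine clJ F hS hPS hdP (some x) (d.R x) (w x) (fun z hz => F.child z x hz) ?_ B (le_refl _)
    · intro z hz
      refine ih (L z) ?_ z rfl
      have h1 := (F.child z x hz).2
      have h2 := F.Lw x
      have h3 := F.wpos x
      rw [h1, ← hx, h2]
      calc w x < 2 * w x := by omega
        _ ≤ B * w x := Nat.mul_le_mul_right _ hB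

end

/-- A system of blocks in which every block has at most two parents, and the blocks which have a
common child with a block `p` (with `p` itself) are pairwise incomparable, has a schedule. -/
theorem exists_forest (S : Finset ℕ) (P : ℕ → Finset ℕ) (hS : ∀ i, i ∉ S → P i = ∅)
    (hPS : ∀ i, P i ⊆ S) (hP2 : ∀ i, (P i).card ≤ 2) (hlt : ∀ i, ∀ j ∈ P i, j < i)
    (hanti : ∀ p x y i j, p ∈ P i → x ∈ P i → p ∈ P j → y ∈ P j →
      ¬ Relation.TransGen (fun a b => a ∈ P b) x y) :
    ∃ F : Forest, (∀ i ∈ S, i ∈ F.flat) ∧ Ok P F ∅ ∅ := by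
  obtain ⟨M, hM⟩ : ∃ M, ∀ i ∈ S, i < M := ⟨S.sup id + 1, fun i hi =>
    Nat.lt_succ_of_le (le_sup (f := id) hi)⟩
  set P' : {i // i ∈ S} → Finset {i // i ∈ S} :=
    fun v => univ.filter (fun p => (p : ℕ) ∈ P v) with hP'
  have hmem : ∀ v p : {i // i ∈ S}, p ∈ P' v ↔ (p : ℕ) ∈ P v := by
    intro v p
    simp only [hP', mem_filter, mem_univ, true_and]
  have h2 : ∀ v, (P' v).card ≤ 2 := by
    intro v
    refine le_trans ?_ (hP2 v)
    refine card_le_card_of_injOn (fun p => (p : ℕ)) ?_ ?_
    · intro p hp
      exact mem_coe.2 ((hmem v p).1 (mem_coe.1 hp))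
    · intro p _ p' _ h
      exact Subtype.ext h
  have hlev : ∀ z p : {i // i ∈ S}, p ∈ P' z → (p : ℕ) < z := by
    intro z p hp
    exact hlt z p ((hmem z p).1 hp)
  have hC : Anti P' := by
    intro p x y i j h1 h2 h3 h4 h
    refine hanti p x y i j ((hmem _ _).1 h1) ((hmem _ _).1 h2) ((hmem _ _).1 h3)
      ((hmem _ _).1 h4) ?_
    clear h1 h2 h3 h4
    induction h with
    | single h => exact Relation.TransGen.single ((hmem _ _).1 h)
    | tail _ h ih => exact Relation.TransGen.tail ih ((hmem _ _).1 h)
  set idx : {i // i ∈ S} → ℕ := fun v => (v : ℕ) + 1 with hidx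
  obtain ⟨a, k, lp, h⟩ := exists_ord P' (fun v => (v : ℕ)) hlev idx (M + 2) M (M + 1)
  have h' : ∀ v, OrdAt P' idx (M + 2) M a k lp v := fun v => h v (by
    have := hM v v.2
    omega)
  have F := facts (lev := fun v : {i // i ∈ S} => (v : ℕ)) h2 hlev hC (fun z => by
      have := hM z z.2
      simp only [hidx]
      omega)
    (fun x y hxy => by
      simp only [hidx] at hxy
      apply Subtype.ext
      omega) (by omega) (fun v => by
      have := hM v v.2
      omega) h' 0 0 (fun _ _ => ∅)
  obtain ⟨T, t1, t2, t3, t4, t5⟩ := clJ F hS hPS hmem none 0 ((M + 2) ^ (M + 1))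
    (fun z hz => by
      rw [Nat.zero_add]
      exact F.root z hz)
    (fun z _ => clX F hS hPS hmem (by omega) _ z rfl) (M + 2) (le_refl _)
  refine ⟨T, ?_, ?_⟩
  · intro i hi
    rw [t1 ⟨i, hi⟩]
    obtain ⟨z, hz, hz'⟩ := F.top ⟨i, hi⟩
    exact ⟨z, hz, (F.idx1 z).2, hz'⟩
  · exact t5 ∅ ∅ (fun v hv => absurd hv (notMem_empty v)) (fun v hv => absurd hv (notMem_empty _))
      (fun v hv => absurd hv (notMem_empty v)) (fun v hv => absurd hv (notMem_empty _))

end Pool.Agent.Lib.MP_994fee_co.Two
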