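import Mathlib
import Pool.Agent.Lib.MP_994fee_co.Pair.Layers
import Pool.Agent.Lib.MP_994fee_co.Two.Hats
import Pool.Agent.Lib.MP_994fee_co.Two.Order18

/-!
# Two parents, incomparable partners
-/

set_option autoImplicit false

namespace Pool.Agent.Lib.MP_994fee_co

open Finset

/-- The block `j` is a parent of the block `i` (`β v` is the block of the vertex `v`): it has a
smaller number, and some edge joins the two blocks. -/
def Par {V : Type} (G : SimpleGraph V) (β : V → ℕ) (j i : ℕ) : Prop :=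
  j < i ∧ ∃ v w, G.Adj v w ∧ β v = j ∧ β w = i

/-- `G` is spread with parameter `n`: its vertices lie in numbered blocks of at most `n` vertices,
every block has at most two parents, and for every block `p` the blocks that are parents of a child
of `p` (`p` is one of them) are pairwise incomparable: no directed path of parents and children
leads from one of them to another. -/
def Spread {V : Type} (n : ℕ) (G : SimpleGraph V) : Prop :=
  ∃ β : V → ℕ, (∀ i, {v | β v = i}.ncard ≤ n) ∧ (∀ i, {j | Par G β j i}.ncard ≤ 2) ∧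
    ∀ p x y i j, Par G β p i → Par G β x i → Par G β p j → Par G β y j →
      ¬ Relation.TransGen (Par G β) x y

/-- `G` is layered with parameter `n`: the vertices have levels below `n`, every vertex has at most
`n` neighbours of smaller level, and every level induces a graph that is spread or a pair-tree with
parameter `n`. -/
def SpreadLayered {V : Type} (n : ℕ) (G : SimpleGraph V) : Prop :=
  ∃ lev : V → ℕ, (∀ v, lev v < n) ∧ (∀ v, {w | G.Adj v w ∧ lev w < lev v}.ncard ≤ n) ∧
    ∀ i, Spread n (G.induce {v | lev v = i}) ∨ PairTree n (G.induce {v | lev v = i})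

/-- Pair-layered graphs are layered. -/
lemma PairLayered.spreadLayered {V : Type} {n : ℕ} {G : SimpleGraph V} (h : PairLayered n G) :
    SpreadLayered n G := by
  obtain ⟨lev, h1, h2, h3⟩ := h
  exact ⟨lev, h1, h2, fun i => Or.inr (h3 i)⟩

namespace Two

open TL

/-- The parents, on a set of vertices. -/
def ParOn {V : Type} (G : SimpleGraph V) (β : V → ℕ) (S : Finset V) (j i : ℕ) : Prop :=
  j < i ∧ ∃ v ∈ S, ∃ w ∈ S, G.Adj v w ∧ β v = j ∧ β w = i

/-- The spread structure on a set of vertices. -/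
def SpreadOn {V : Type} (n : ℕ) (G : SimpleGraph V) (S : Finset V) : Prop :=
  ∃ β : V → ℕ, (∀ i, (S.filter (fun v => β v = i)).card ≤ n) ∧
    (∀ i, ∀ T : Finset ℕ, (∀ j ∈ T, ParOn G β S j i) → T.card ≤ 2) ∧
    ∀ p x y i j, ParOn G β S p i → ParOn G β S x i → ParOn G β S p j → ParOn G β S y j →
      ¬ Relation.TransGen (ParOn G β S) x y

lemma spreadOn_core {V : Type} [Fintype V] [DecidableEq V] (n s q k k' m : ℕ)
    (hk : n * s + 1 ≤ k) (hm : m = k ^ n) (hc1 : CovIn V n q k' k m) (hc2 : CovIn V n q q k' m)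
    (hkq : k' ≤ q) (hq : 0 < q) (G : SimpleGraph V) (S : Finset V) (h : SpreadOn n G S) :
    LosesOn G S s q := by
  classical
  obtain ⟨β, hB, hP2, hanti⟩ := h
  intro g hg hgs
  let P : ℕ → Finset ℕ := fun i => (S.image β).filter (fun j => ParOn G β S j i)
  have hP : ∀ i j, j ∈ P i ↔ ParOn G β S j i := by
    intro i j
    simp only [P, Finset.mem_filter]
    refine ⟨fun h => h.2, fun h => ⟨?_, h⟩⟩
    obtain ⟨_, v, hv, _, _, _, hvj, _⟩ := h
    exact Finset.mem_image.2 ⟨v, hv, hvj⟩
  have hTG : ∀ x y, Relation.TransGen (fun a b => a ∈ P b) x y →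
      Relation.TransGen (ParOn G β S) x y := by
    intro x y h
    exact Relation.TransGen.mono (fun a b hab => (hP b a).1 hab) _ _ h
  obtain ⟨F, hF, hOk⟩ := exists_forest (S.image β) P
    (by
      intro i hi
      rw [Finset.eq_empty_iff_forall_notMem]
      intro j hj
      obtain ⟨_, _, _, w, hw, _, _, hwi⟩ := (hP i j).1 hj
      exact hi (Finset.mem_image.2 ⟨w, hw, hwi⟩))
    (fun i => Finset.filter_subset _ _)
    (fun i => hP2 i _ (fun j hj => (hP i j).1 hj))
    (fun i j hj => ((hP i j).1 hj).1)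
    (fun p x y i j h1 h2 h3 h4 h5 => hanti p x y i j ((hP i p).1 h1) ((hP i x).1 h2)
      ((hP j p).1 h3) ((hP j y).1 h4) (hTG x y h5))
  obtain ⟨c, hc⟩ := hats n s q k k' m hk hm hc1 hc2 hkq G S β P
    (fun i hi => lt_irrefl _ ((hP i i).1 hi).1) hB
    (by
      intro v hv w hw hvw
      rcases lt_trichotomy (β v) (β w) with h | h | h
      · exact Or.inr (Or.inr ((hP _ _).2 ⟨h, v, hv, w, hw, hvw, rfl, rfl⟩))
      · exact Or.inl h
      · exact Or.inr (Or.inl ((hP _ _).2 ⟨h, w, hw, v, hv, hvw.symm, rfl, rfl⟩)))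
    F (fun v hv => hF _ (Finset.mem_image_of_mem _ hv)) hOk g hg hgs
  refine ⟨fun v => if v ∈ S then c v else 0, fun v => ?_, fun v hv => ?_⟩
  · show (if v ∈ S then c v else 0) < q
    split_ifs with h
    · exact (hc v h).1
    · exact hq
  · have : g v (fun v => if v ∈ S then c v else 0) = g v c := by
      apply hg v hv
      intro u hu _
      simp only [hu, if_true]
    rw [this]
    simp only [hv, if_true]
    exact (hc v hv).2

lemma spreadOn_loses (n s : ℕ) : ∃ q : ℕ, 0 < q ∧ ∀ {V : Type} [Fintype V] [DecidableEq V]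
    (G : SimpleGraph V) (S : Finset V), SpreadOn n G S → LosesOn G S s q := by
  obtain ⟨k', hk', hc1⟩ := covIn_ramsey n (n * s + 1) ((n * s + 1) ^ n) (by omega)
  obtain ⟨K, _, hc2⟩ := covIn_ramsey n k' ((n * s + 1) ^ n) hk'
  refine ⟨max K k', lt_of_lt_of_le hk' (le_max_right _ _), fun {V} _ _ G S h => ?_⟩
  exact spreadOn_core n s (max K k') (n * s + 1) k' _ (le_refl _) rfl
    (hc1 k' (le_refl _) _ V) (hc2 _ (le_max_left _ _) _ V) (le_max_right _ _)
    (lt_of_lt_of_le hk' (le_max_right _ _)) G S h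

lemma spreadOn_one {V : Type} [Fintype V] [DecidableEq V] (G : SimpleGraph V) (S : Finset V)
    (h : SpreadOn 1 G S) : LosesOn G S 1 5 :=
  spreadOn_core 1 1 5 2 3 2 (le_refl _) rfl (covIn_one 5 (by norm_num) (by norm_num) V)
    (covIn_one 5 (by norm_num) (by norm_num) V) (by norm_num) (by norm_num) G S h

lemma losesOn_mono {V : Type} {G : SimpleGraph V} {X : Finset V} {s q q' : ℕ} (hq : q ≤ q')
    (h : LosesOn G X s q) : LosesOn G X s q' := by
  intro g hg hgs
  obtain ⟨c, hc, hc'⟩ := h g hg hgs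
  exact ⟨c, fun v => lt_of_lt_of_le (hc v) hq, hc'⟩

lemma levels3 (n : ℕ) : ∀ M s : ℕ, ∃ q : ℕ, ∀ {V : Type} [Fintype V] [DecidableEq V]
    (G : SimpleGraph V) (X : Finset V) (lev : V → ℕ), (∀ v ∈ X, lev v < M) →
    (∀ v ∈ X, {w | w ∈ X ∧ G.Adj v w ∧ lev w < lev v}.ncard ≤ n) →
    (∀ i, SpreadOn n G (X.filter (fun v => lev v = i)) ∨
      Pair.PairOn n G (X.filter (fun v => lev v = i))) → LosesOn G X s q := by
  intro M
  induction M with
  | zero =>
    intro s
    refine ⟨1, ?_⟩
    intro V _ _ G X lev h1 _ _ g _ _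
    exact ⟨fun _ => 0, fun _ => Nat.zero_lt_one, fun v hv => absurd (h1 v hv) (Nat.not_lt_zero _)⟩
  | succ M ih =>
    intro s
    obtain ⟨K₃, hK₃, hT₃⟩ := spreadOn_loses n s
    obtain ⟨K₄, hK₄, hT₄⟩ := Pair.pairOn_loses n s
    obtain ⟨K₂, hK₂⟩ := ih (s * (max K₃ K₄) ^ n)
    refine ⟨max (max K₃ K₄) K₂, ?_⟩
    intro V _ _ G X lev h1 h2 h3
    have hsd : ∀ v, v ∈ X \ X.filter (fun v => lev v = 0) ↔ v ∈ X ∧ lev v ≠ 0 := by
      intro v
      rw [Finset.mem_sdiff, Finset.mem_filter]
      tauto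
    have hT : LosesOn G (X.filter (fun v => lev v = 0)) s (max K₃ K₄) := by
      rcases h3 0 with h | h
      · exact losesOn_mono (le_max_left _ _) (hT₃ G _ h)
      · exact losesOn_mono (le_max_right _ _) (hT₄ G _ h)
    refine LosesOn.step (Y := X.filter (fun v => lev v = 0)) (Finset.filter_subset _ _)
      (B := n) ?_ (lt_of_lt_of_le hK₃ (le_max_left _ _)) hT ?_
    · intro x hx
      obtain ⟨hxX, hx0⟩ := (hsd x).1 hx
      refine le_trans (Set.ncard_le_ncard ?_ (Set.toFinite _)) (h2 x hxX)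
      rintro w ⟨hw, hxw⟩
      have := Finset.mem_filter.1 hw
      exact ⟨this.1, hxw, by rw [this.2]; omega⟩
    · refine hK₂ G _ (fun v => lev v - 1) ?_ ?_ ?_
      · intro v hv
        obtain ⟨hvX, hv0⟩ := (hsd v).1 hv
        have := h1 v hvX
        show lev v - 1 < M
        omega
      · intro v hv
        obtain ⟨hvX, hv0⟩ := (hsd v).1 hv
        refine le_trans (Set.ncard_le_ncard ?_ (Set.toFinite _)) (h2 v hvX)
        rintro w ⟨hw, hvw, hlt⟩
        obtain ⟨hwX, hw0⟩ := (hsd w).1 hw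
        have hlt' : lev w - 1 < lev v - 1 := hlt
        exact ⟨hwX, hvw, by omega⟩
      · intro i
        have : (X \ X.filter (fun v => lev v = 0)).filter (fun v => lev v - 1 = i) =
            X.filter (fun v => lev v = i + 1) := by
          ext v
          rw [Finset.mem_filter, hsd, Finset.mem_filter]
          constructor
          · rintro ⟨⟨h4, h5⟩, h6⟩
            exact ⟨h4, by omega⟩
          · rintro ⟨h4, h5⟩
            exact ⟨⟨h4, by omega⟩, by omega⟩
        rw [this]
        exact h3 (i + 1)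

/-- The spread structure of an induced subgraph. -/
lemma Spread.spreadOn {V : Type} [Fintype V] [DecidableEq V] {n : ℕ} {G : SimpleGraph V} {lev : V → ℕ} {i : ℕ} (h : Spread n (G.induce {v | lev v = i})) :
    SpreadOn n G (Finset.univ.filter (fun v => lev v = i)) := by
  classical
  obtain ⟨β, hB, hP2, hanti⟩ := h
  have hPar : ∀ a b, ParOn G (fun v => if h : lev v = i then β ⟨v, h⟩ else 0)
      (Finset.univ.filter (fun v => lev v = i)) a b →
      Par (G.induce {v | lev v = i}) β a b := by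
    rintro a b ⟨hab, v, hv, w, hw, hvw, hva, hwb⟩
    have hvi : lev v = i := (Finset.mem_filter.1 hv).2
    have hwi : lev w = i := (Finset.mem_filter.1 hw).2
    simp only [hvi, hwi, dif_pos] at hva hwb
    exact ⟨hab, ⟨v, hvi⟩, ⟨w, hwi⟩, hvw, hva, hwb⟩
  refine ⟨fun v => if h : lev v = i then β ⟨v, h⟩ else 0, ?_, ?_, ?_⟩
  · intro j
    refine le_trans ?_ (hB j)
    rw [← Set.ncard_image_of_injective {v : {v | lev v = i} | β v = j} Subtype.val_injective,
      ← Set.ncard_coe_finset]
    refine Set.ncard_le_ncard ?_ (Set.toFinite _)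
    intro v hv
    have h4 := Finset.mem_filter.1 (Finset.mem_coe.1 hv)
    have hvi : lev v = i := (Finset.mem_filter.1 h4.1).2
    refine ⟨⟨v, hvi⟩, ?_, rfl⟩
    have h5 := h4.2
    simp only [hvi, dif_pos] at h5
    exact h5
  · intro j T hT
    refine le_trans ?_ (hP2 j)
    rw [← Set.ncard_coe_finset]
    refine Set.ncard_le_ncard (fun k hk => hPar k j (hT k (Finset.mem_coe.1 hk))) ?_
    refine Set.Finite.subset (Set.finite_Iio j) ?_
    rintro k ⟨hk, _⟩
    exact hk
  · intro p x y a b h1 h2 h3 h4 h5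
    exact hanti p x y a b (hPar _ _ h1) (hPar _ _ h2) (hPar _ _ h3) (hPar _ _ h4)
      (Relation.TransGen.mono hPar _ _ h5)

/-- The pair-tree structure of an induced subgraph. -/
lemma PairTree.pairOn {V : Type} [Fintype V] [DecidableEq V] {n : ℕ}
    {G : SimpleGraph V} {lev : V → ℕ} {i : ℕ} (h : PairTree n (G.induce {v | lev v = i})) :
    Pair.PairOn n G (Finset.univ.filter (fun v => lev v = i)) := by
  classical
  obtain ⟨β, P, ρ, hP, hP2, hsib, hρ, hρ0, ht, hadj, hb⟩ := h
  refine ⟨fun v => if h : lev v = i then β ⟨v, h⟩ else 0, P, ρ, hP, hP2, hsib, hρ, hρ0, ?_, ?_,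
    ?_⟩
  · intro j
    refine le_trans ?_ (ht j)
    rw [← Set.ncard_image_of_injective {v : {v | lev v = i} | β v = j} Subtype.val_injective,
      ← Set.ncard_coe_finset]
    refine Set.ncard_le_ncard ?_ (Set.toFinite _)
    intro v hv
    have h4 := Finset.mem_filter.1 (Finset.mem_coe.1 hv)
    have hvi : lev v = i := (Finset.mem_filter.1 h4.1).2
    refine ⟨⟨v, hvi⟩, ?_, rfl⟩
    have h5 := h4.2
    simp only [hvi, dif_pos] at h5
    exact h5
  · intro v hv w hw hvw
    have hvi : lev v = i := (Finset.mem_filter.1 hv).2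
    have hwi : lev w = i := (Finset.mem_filter.1 hw).2
    have := hadj ⟨v, hvi⟩ ⟨w, hwi⟩ hvw
    simp only [hvi, hwi, dif_pos]
    exact this
  · intro j T hT
    refine le_trans ?_ (hb j)
    rw [← Set.ncard_coe_finset]
    refine Set.ncard_le_ncard ?_ ?_
    · intro k hk
      obtain ⟨h4, h5, v, hv, w, hw, hvw, hv1, hw1⟩ := hT k (Finset.mem_coe.1 hk)
      have hvi : lev v = i := (Finset.mem_filter.1 hv).2
      have hwi : lev w = i := (Finset.mem_filter.1 hw).2
      simp only [hvi, hwi, dif_pos] at hv1 hw1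
      exact ⟨h4, h5, ⟨v, hvi⟩, ⟨w, hwi⟩, hvw, hv1, hw1⟩
    · refine Set.Finite.subset (Set.finite_range β) ?_
      rintro k ⟨_, _, v, w, _, _, hw⟩
      exact ⟨w, hw⟩

end Two

/-- Pair-trees of single vertices are spread. -/
lemma PairTree.spread {V : Type} {G : SimpleGraph V} (h : PairTree 1 G) : Spread 1 G := by
  obtain ⟨β, P, ρ, hP, hP2, hsib, hρ, _, ht, hadj, _⟩ := h
  have hPar : ∀ j i, Par G β j i → j ∈ P i := by
    rintro j i ⟨hji, v, w, hvw, rfl, rfl⟩
    rcases hadj v w hvw with h | h | h | ⟨_, h⟩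
    · omega
    · have := hP _ _ h
      omega
    · exact h
    · exact absurd ((Nat.lt_one_iff.1 (hρ _)).trans (Nat.lt_one_iff.1 (hρ _)).symm) h
  refine ⟨β, ht, fun i => ?_, ?_⟩
  · refine le_trans ?_ (hP2 i)
    rw [← Set.ncard_coe_finset]
    exact Set.ncard_le_ncard (fun j hj => hPar j i hj) (P i).finite_toSet
  · intro p x y i j h1 h2 h3 h4 h5
    have h6 : P x = P y := (hsib i x (hPar _ _ h2) p (hPar _ _ h1)).trans
      (hsib j p (hPar _ _ h3) y (hPar _ _ h4))
    have h7 : ∀ a b, Relation.TransGen (Par G β) a b → ∃ c, (c = a ∨ a < c) ∧ c ∈ P b := by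
      intro a b hab
      induction hab with
      | single h => exact ⟨_, Or.inl rfl, hPar _ _ h⟩
      | tail _ h ih =>
        obtain ⟨c, hc, hcb⟩ := ih
        refine ⟨_, Or.inr ?_, hPar _ _ h⟩
        have := hP _ _ hcb
        rcases hc with hc | hc <;> omega
    obtain ⟨c, hc, hcy⟩ := h7 x y h5
    rw [← h6] at hcy
    have := hP _ _ hcy
    rcases hc with hc | hc <;> omega

/-- A spread-layered graph with parameter one is spread. -/
lemma SpreadLayered.spread {V : Type} {G : SimpleGraph V} (h : SpreadLayered 1 G) :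
    Spread 1 G := by
  obtain ⟨lev, h1, _, h3⟩ := h
  have hlev : ∀ v, lev v = 0 := fun v => Nat.lt_one_iff.1 (h1 v)
  have h4 : Spread 1 (G.induce {v | lev v = 0}) := by
    rcases h3 0 with h | h
    · exact h
    · exact h.spread
  obtain ⟨β, hB, hP2, hanti⟩ := h4
  have hPar : ∀ a b, Par G (fun v => β ⟨v, hlev v⟩) a b →
      Par (G.induce {v | lev v = 0}) β a b := by
    rintro a b ⟨hab, v, w, hvw, hva, hwb⟩
    exact ⟨hab, ⟨v, hlev v⟩, ⟨w, hlev w⟩, hvw, hva, hwb⟩
  have hPar' : ∀ a b, Par (G.induce {v | lev v = 0}) β a b →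
      Par G (fun v => β ⟨v, hlev v⟩) a b := by
    rintro a b ⟨hab, v, w, hvw, hva, hwb⟩
    exact ⟨hab, v.1, w.1, hvw, hva, hwb⟩
  refine ⟨fun v => β ⟨v, hlev v⟩, fun i => ?_, fun i => ?_, ?_⟩
  · refine le_trans (le_of_eq ?_) (hB i)
    rw [← Set.ncard_image_of_injective {v : {v | lev v = 0} | β v = i} Subtype.val_injective]
    congr 1
    ext v
    constructor
    · intro hv
      exact ⟨⟨v, hlev v⟩, hv, rfl⟩
    · rintro ⟨⟨w, hw⟩, hv, rfl⟩
      exact hv
  · refine le_trans (le_of_eq ?_) (hP2 i)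
    congr 1
    ext j
    exact ⟨hPar j i, hPar' j i⟩
  · intro p x y i j h1 h2 h3 h4 h5
    exact hanti p x y i j (hPar _ _ h1) (hPar _ _ h2) (hPar _ _ h3) (hPar _ _ h4)
      (Relation.TransGen.mono hPar _ _ h5)

/-- The hat guessing number is bounded on spread-layered graphs. -/
theorem hat_spreadLayered (n : ℕ) : ∃ q₀ : ℕ, ∀ (V : Type) [Fintype V] (G : SimpleGraph V),
    SpreadLayered n G → ∀ q : ℕ, (∃ s, IsWinning G q s) → q < q₀ := by
  classical
  obtain ⟨q₀, hq₀⟩ := Two.levels3 n n 1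
  refine ⟨q₀ + 1, ?_⟩
  rintro V _ G ⟨lev, h1, h2, h3⟩ q hst
  by_contra hq
  refine Pair.not_winning (q₀ := q₀) ?_ (q := q) (by omega) (by omega) hst
  apply hq₀ G Finset.univ lev (fun v _ => h1 v)
  · intro v _
    refine le_trans (Set.ncard_le_ncard ?_ (Set.toFinite _)) (h2 v)
    rintro w ⟨_, hw⟩
    exact hw
  · intro i
    rcases h3 i with h | h
    · exact Or.inl (Two.Spread.spreadOn h)
    · exact Or.inr (Two.PairTree.pairOn h)

/-- The case `n = 1`: the hat guessing number is at most four. -/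
theorem hat_one' (V : Type) [Fintype V] (G : SimpleGraph V) (h : SpreadLayered 1 G) (q : ℕ)
    (hst : ∃ s, IsWinning G q s) : q < 5 := by
  classical
  obtain ⟨lev, h1, h2, h3⟩ := h
  rcases h3 0 with h | h
  · by_contra hq
    have hlev : ∀ v, lev v = 0 := fun v => Nat.lt_one_iff.1 (h1 v)
    refine Pair.not_winning (q₀ := 5) ?_ (q := q) (by omega) (by omega) hst
    have := Two.spreadOn_one G _ (Two.Spread.spreadOn h)
    rw [Finset.filter_true_of_mem (fun v _ => hlev v)] at this
    exact this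
  · refine hat_one V G ⟨lev, h1, h2, fun i => ?_⟩ q hst
    by_cases hi : i = 0
    · rw [hi]; exact h
    · have hlev : ∀ v, lev v = 0 := fun v => Nat.lt_one_iff.1 (h1 v)
      refine ⟨fun _ => 0, fun _ => ∅, fun _ => 0, fun _ j hj => absurd hj (Finset.notMem_empty j),
        fun _ => Nat.zero_le _, fun _ j hj => absurd hj (Finset.notMem_empty j),
        fun _ => Nat.zero_lt_one, fun _ _ _ _ => rfl, fun j => ?_, ?_, fun j => ?_⟩
      · have : ({v | (0 : ℕ) = j} : Set {v | lev v = i}) = ∅ := by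
          ext v
          exact absurd ((hlev v.1).symm.trans v.2).symm hi
        rw [this, Set.ncard_empty]
        exact Nat.zero_le _
      · rintro ⟨v, hv⟩
        exact absurd ((hlev v).symm.trans hv).symm hi
      · refine le_trans (le_of_eq ?_) (Nat.zero_le 1)
        have : ∀ A : Set ℕ, A = ∅ → A.ncard = 0 := fun A hA => by rw [hA, Set.ncard_empty]
        apply this
        ext j
        simp

/-- The hat guessing number is bounded on spread-layered graphs, and the bound is `HG ≤ 4` for the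
parameter `n = 1`. -/
theorem hat_spreadLayered' : ∃ q₀ : ℕ → ℕ, q₀ 1 = 5 ∧
    ∀ (n : ℕ) (V : Type) [Fintype V] (G : SimpleGraph V), SpreadLayered n G →
      ∀ q : ℕ, (∃ s, IsWinning G q s) → q < q₀ n := by
  choose f hf using hat_spreadLayered
  refine ⟨fun n => if n = 1 then 5 else f n, rfl, fun n V _ G hG q hst => ?_⟩
  by_cases hn : n = 1
  · subst hn
    exact hat_one' V G hG q hst
  · simp only [hn, if_false]
    exact hf n V G hG q hst

end Pool.Agent.Lib.MP_994fee_co
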