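import Mathlib
import Pool.Agent.Lib.MP_994fee_co.FB.Abs53
import Pool.Agent.Lib.MP_994fee_co.FB.Box53
import Pool.Agent.Lib.MP_994fee_co.FB.Thin53
import Pool.Agent.Lib.MP_994fee_co.FB.Cost53b
import Pool.Agent.Lib.MP_994fee_co.FB.Build76
import Pool.Agent.Lib.MP_994fee_co.Two.Frame

/-!
# Blocks: a forest plus a graph of bounded degree
-/

set_option autoImplicit false

namespace Pool.Agent.Lib.MP_994fee_co

open Finset

namespace Two

/-- The structure on a set of vertices: outside `H` every block has at most one parent. -/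
def ForestPlusOn {V : Type} (n : ℕ) (G : SimpleGraph V) (S : Finset V) : Prop :=
  ∃ (β : V → ℕ) (H : SimpleGraph ℕ), (∀ i, (S.filter (fun v => β v = i)).card ≤ n) ∧
    (∀ i, ∀ T : Finset ℕ, (∀ j ∈ T, H.Adj i j ∧ (ParOn G β S i j ∨ ParOn G β S j i)) →
      T.card ≤ n) ∧
    ∀ i a b, ParOn G β S a i → ¬ H.Adj i a → ParOn G β S b i → ¬ H.Adj i b → a = b

theorem forestPlusOn_loses (n s : ℕ) : ∃ q : ℕ, 0 < q ∧
    ∀ {V : Type} (G : SimpleGraph V) (S : Finset V), ForestPlusOn n G S → TL.LosesOn G S s q := by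
  classical
  obtain ⟨N₀, gam, hyp⟩ := FB.hyp_box n s (2 * n + 1)
  obtain ⟨w, hw⟩ : ∃ w, w = (n * s + 1) ^ n := ⟨_, rfl⟩
  rw [← hw] at hyp
  have hw1 : 1 ≤ w := by rw [hw]; exact Nat.one_le_pow _ _ (Nat.succ_pos _)
  obtain ⟨B, hB⟩ : ∃ B, B = (2 * n + 1) * (w * N₀) ^ (2 * n + 1 + 1) := ⟨_, rfl⟩
  obtain ⟨q, hq⟩ : ∃ q, q = max 1 (gam ((w * N₀ + 1) * B)) := ⟨_, rfl⟩
  have hq0 : 0 < q := by rw [hq]; exact lt_of_lt_of_le one_pos (le_max_left _ _)
  refine ⟨q, hq0, ?_⟩
  rintro V G S ⟨β, H, hβ, hH, hT⟩ g hg hgs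
  -- no vertices at all
  rcases Nat.eq_zero_or_pos n with hn | hn
  · refine ⟨fun _ => 0, fun _ => hq0, fun v hv => ?_⟩
    have h1 := hβ (β v)
    rw [hn, Nat.le_zero, card_eq_zero] at h1
    exact absurd (mem_filter.2 ⟨hv, rfl⟩ : v ∈ S.filter (fun u => β u = β v))
      (by rw [h1]; exact notMem_empty v)
  -- the places of the vertices in their blocks
  have hι : ∀ i, ∃ f : V → Fin n, ∀ v ∈ S, ∀ u ∈ S, β v = i → β u = i → f v = f u → v = u := by
    intro i
    obtain ⟨e⟩ : Nonempty ({x // x ∈ S.filter (fun v => β v = i)} ↪ Fin n) :=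
      Function.Embedding.nonempty_of_card_le (by simpa using hβ i)
    refine ⟨fun v => if h : v ∈ S.filter (fun v => β v = i) then e ⟨v, h⟩ else ⟨0, hn⟩, ?_⟩
    intro v hv u hu hvi hui h
    have h1 : v ∈ S.filter (fun v => β v = i) := mem_filter.2 ⟨hv, hvi⟩
    have h2 : u ∈ S.filter (fun v => β v = i) := mem_filter.2 ⟨hu, hui⟩
    simp only [h1, h2, dif_pos] at h
    exact congrArg Subtype.val (e.injective h)
  choose f hf using hι
  obtain ⟨ι, hι⟩ : ∃ ι : V → Fin n, ∀ v ∈ S, ∀ u ∈ S, β v = β u → ι v = ι u → v = u :=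
    ⟨fun v => f (β v) v, fun v hv u hu h1 h2 => hf (β v) v hv u hu rfl h1.symm (by
      have h3 : f (β v) v = f (β u) u := h2
      rw [h3, h1])⟩
  -- the graph of the blocks
  let I : Type := {i // i ∈ S.image β}
  let bl : ∀ v, v ∈ S → I := fun v hv => ⟨β v, mem_image_of_mem β hv⟩
  let Q : SimpleGraph I :=
    { Adj := fun i j => i ≠ j ∧ ∃ v ∈ S, ∃ u ∈ S, G.Adj v u ∧ β v = i.1 ∧ β u = j.1
      symm := ⟨by
        rintro i j ⟨h1, v, hv, u, hu, h2, h3, h4⟩
        exact ⟨h1.symm, u, hu, v, hv, h2.symm, h4, h3⟩⟩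
      loopless := ⟨fun i h => h.1 rfl⟩ }
  let QT : SimpleGraph I :=
    { Adj := fun i j => Q.Adj i j ∧ ¬ H.Adj i.1 j.1
      symm := ⟨fun i j h => ⟨h.1.symm, fun h' => h.2 h'.symm⟩⟩
      loopless := ⟨fun i h => h.1.1 rfl⟩ }
  let QH : SimpleGraph I :=
    { Adj := fun i j => Q.Adj i j ∧ H.Adj i.1 j.1
      symm := ⟨fun i j h => ⟨h.1.symm, h.2.symm⟩⟩
      loopless := ⟨fun i h => h.1.1 rfl⟩ }
  have hpar : ∀ i j : I, Q.Adj i j → j.1 < i.1 → ParOn G β S j.1 i.1 := by
    rintro i j ⟨h1, v, hv, u, hu, h2, h3, h4⟩ h5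
    exact ⟨h5, u, hu, v, hv, h2.symm, h4, h3⟩
  have hne : ∀ i j : I, Q.Adj i j → i.1 < j.1 ∨ j.1 < i.1 := by
    intro i j h
    exact lt_or_gt_of_ne fun h' => h.1 (Subtype.ext h')
  obtain ⟨F, Hn, hF1, hF2, hF3, hF4, hF5⟩ := FB.exists_fr n Q QT QH
    (by
      intro i j h
      by_cases h' : H.Adj i.1 j.1
      · exact Or.inr ⟨h, h'⟩
      · exact Or.inl ⟨h, h'⟩)
    ⟨fun i => i.1, Subtype.val_injective, fun i => by
      rw [Set.ncard_le_one (Set.toFinite _)]
      rintro a ⟨⟨ha1, ha2⟩, ha3⟩ b ⟨⟨hb1, hb2⟩, hb3⟩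
      exact Subtype.ext (hT i.1 a.1 b.1 (hpar i a ha1 ha3) ha2 (hpar i b hb1 hb3) hb2)⟩
    (by
      intro i
      have h1 := hH i.1 ((univ.filter (fun j : I => QH.Adj i j)).image Subtype.val) (by
        intro j hj
        obtain ⟨j', hj', rfl⟩ := mem_image.1 hj
        have h2 := (mem_filter.1 hj').2
        refine ⟨h2.2, ?_⟩
        rcases hne i j' h2.1 with h3 | h3
        · exact Or.inl (hpar j' i h2.1.symm h3)
        · exact Or.inr (hpar i j' h2.1 h3))
      rw [card_image_of_injective _ Subtype.val_injective] at h1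
      refine le_trans (le_of_eq ?_) h1
      rw [← Set.ncard_coe_finset]
      congr 1
      ext j
      simp only [coe_filter, mem_univ, true_and, Set.mem_ofPred_eq]
      exact Iff.rfl)
  -- colourings of the blocks and of the vertices
  let ext : (I → Fin n → Fin q) → V → ℕ := fun c u =>
    if h : u ∈ S then (c (bl u h) (ι u) : ℕ) else 0
  have hext : ∀ (c : I → Fin n → Fin q) (u : V) (hu : u ∈ S) (x : I), β u = x.1 →
      ext c u = (c x (ι u) : ℕ) := by
    intro c u hu x hx
    have : bl u hu = x := Subtype.ext hx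
    simp only [ext, hu, dif_pos]
    rw [this]
  let ok : I → (I → Fin n → Fin q) → Prop := fun x c =>
    ∀ v ∈ S, β v = x.1 → ext c v ∉ g v (ext c)
  have hyp' := hyp I (Fin q)
  obtain ⟨M₀, hM₀⟩ : ∃ M₀ : Finset (Fin n → Fin q),
      FB.Pal53 n (Fin q) gam ((w * N₀ + 1) * B) M₀ := by
    refine ⟨_, fun _ => univ, fun _ => ?_, rfl⟩
    rw [card_univ, Fintype.card_fin, hq]
    exact le_max_right _ _
  have hN₀ : 1 ≤ N₀ := by
    obtain ⟨P, _, hP, hc⟩ := hyp'.cand M₀ (hyp'.pal_anti _ _ _ (Nat.zero_le _) hM₀)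
    exact le_trans (card_pos.2 (FB.cand_nonempty hyp'.test_nonempty _ _ hc)) hP
  obtain ⟨c, hc⟩ := FB.acore (G := Q) (Hn := Hn) (ok := ok) hyp' hw1 hF4
    (by
      intro x c c' h1 h2 h3 v hv hvx
      have h4 : ∀ u ∈ S, (u = v ∨ G.Adj v u) → ext c u = ext c' u := by
        intro u hu huv
        by_cases hux : β u = x.1
        · rw [hext c u hu x hux, hext c' u hu x hux, h1]
        · rcases huv with huv | huv
          · exact absurd (huv ▸ hvx) hux
          · rw [hext c u hu (bl u hu) rfl, hext c' u hu (bl u hu) rfl, h2 (bl u hu)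
              ⟨fun h => hux (congrArg Subtype.val h).symm, v, hv, u, hu, huv, hvx, rfl⟩]
      rw [← h4 v hv (Or.inl rfl), ← hg v hv (ext c) (ext c') fun u hu huv => h4 u hu (Or.inr huv)]
      exact h3 v hv hvx)
    (by
      rintro x c E ⟨Bx, hBx, rfl⟩
      have hupd : ∀ (a : Fin n → Fin q) (u : V), u ∈ S → β u = x.1 →
          ext (Function.update c x a) u = (a (ι u) : ℕ) := by
        intro a u hu hux
        rw [hext _ u hu x hux, Function.update_self]
      have hupd' : ∀ (a a' : Fin n → Fin q) (u : V), u ∈ S → β u ≠ x.1 →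
          ext (Function.update c x a) u = ext (Function.update c x a') u := by
        intro a a' u hu hux
        have hb : bl u hu ≠ x := fun h => hux (congrArg Subtype.val h)
        rw [hext _ u hu (bl u hu) rfl, hext _ u hu (bl u hu) rfl, Function.update_of_ne hb,
          Function.update_of_ne hb]
      obtain ⟨a, ha, ha'⟩ := FB.thin_box n s (Fin q) Bx hBx
        (fun i a => univ.filter fun k : Fin q => ∃ v ∈ S, β v = x.1 ∧ ι v = i ∧
          (k : ℕ) ∈ g v (ext (Function.update c x a)))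
        (by
          intro i a
          by_cases h : ∃ v ∈ S, β v = x.1 ∧ ι v = i
          · obtain ⟨v, hv, hvx, hvi⟩ := h
            refine le_trans ?_ (hgs v hv (ext (Function.update c x a)))
            refine card_le_card_of_injOn (fun k : Fin q => (k : ℕ)) ?_
              (Fin.val_injective.injOn)
            intro k hk
            obtain ⟨u, hu, hux, hui, hk⟩ := (mem_filter.1 (mem_coe.1 hk)).2
            rw [hι u hu v hv (hux.trans hvx.symm) (hui.trans hvi.symm)] at hk
            exact mem_coe.2 hk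
          · have : (univ.filter fun k : Fin q => ∃ v ∈ S, β v = x.1 ∧ ι v = i ∧
                (k : ℕ) ∈ g v (ext (Function.update c x a))) = ∅ := by
              rw [filter_eq_empty_iff]
              rintro k _ ⟨v, hv, hvx, hvi, _⟩
              exact h ⟨v, hv, hvx, hvi⟩
            rw [this, card_empty]
            exact Nat.zero_le _)
        (by
          intro i a a' haa
          ext k
          simp only [mem_filter, mem_univ, true_and]
          have key : ∀ v ∈ S, β v = x.1 → ι v = i →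
              g v (ext (Function.update c x a)) = g v (ext (Function.update c x a')) := by
            intro v hv hvx hvi
            apply hg v hv
            intro u hu huv
            by_cases hux : β u = x.1
            · rw [hupd a u hu hux, hupd a' u hu hux, haa (ι u)]
              intro hui
              have := hι u hu v hv (hux.trans hvx.symm) (hui.trans hvi.symm)
              exact G.ne_of_adj huv this.symm
            · exact hupd' a a' u hu hux
          constructor
          · rintro ⟨v, hv, hvx, hvi, hk⟩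
            exact ⟨v, hv, hvx, hvi, by rw [← key v hv hvx hvi]; exact hk⟩
          · rintro ⟨v, hv, hvx, hvi, hk⟩
            exact ⟨v, hv, hvx, hvi, by rw [key v hv hvx hvi]; exact hk⟩)
      refine ⟨a, ha, ?_⟩
      intro v hv hvx hcon
      rw [hupd a v hv hvx] at hcon
      exact ha' (ι v) (mem_filter.2 ⟨mem_univ _, v, hv, hvx, rfl, hcon⟩))
    F hF1 hF2 hF5 B
    (fun y => by
      rw [hB]
      exact FB.costN_le (2 * n + 1) (w * N₀) (Nat.mul_pos hw1 hN₀) Hn hF3 hF4 F hF1 y)
    M₀ hM₀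
  refine ⟨ext c, fun v => ?_, fun v hv => hc (bl v hv) v hv rfl⟩
  simp only [ext]
  split_ifs with h
  · exact Fin.isLt _
  · exact hq0

end Two

end Pool.Agent.Lib.MP_994fee_co
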