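import Mathlib
import Pool.Agent.Lib.MP_994fee_co.Two.Frame
import Pool.Agent.Lib.MP_994fee_co.Two.ForestPlus78
import Pool.Agent.Lib.MP_994fee_co.FB.Acyc41

/-!
# Layers of three kinds
-/

set_option autoImplicit false

namespace Pool.Agent.Lib.MP_994fee_co

open Finset

/-- The vertices of `G` lie in blocks of at most `n` vertices, and two adjacent vertices lie in the
same block, or in blocks adjacent in a forest `T` or in a graph `H` of maximum degree less than
`n`. -/
def ForestPlus {V : Type} (n : ℕ) (G : SimpleGraph V) : Prop :=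
  ∃ (m : ℕ) (β : V → Fin m) (T H : SimpleGraph (Fin m)), T.IsAcyclic ∧
    (∀ i, {v | β v = i}.ncard ≤ n) ∧ (∀ i, {j | H.Adj i j}.ncard < n) ∧
    ∀ v w, G.Adj v w → β v = β w ∨ T.Adj (β v) (β w) ∨ H.Adj (β v) (β w)

/-- `G` is layered with parameter `n`: the vertices have levels below `n`, every vertex has at most
`n` neighbours of smaller level, and every level induces a graph that is spread, a pair-tree, or a
block forest plus a block graph of bounded degree. -/
def MixedLayered {V : Type} (n : ℕ) (G : SimpleGraph V) : Prop :=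
  ∃ lev : V → ℕ, (∀ v, lev v < n) ∧ (∀ v, {w | G.Adj v w ∧ lev w < lev v}.ncard ≤ n) ∧
    ∀ i, Spread n (G.induce {v | lev v = i}) ∨ PairTree n (G.induce {v | lev v = i}) ∨
      ForestPlus n (G.induce {v | lev v = i})

namespace Two

open TL

lemma levels4 (n : ℕ) : ∀ M s : ℕ, ∃ q : ℕ, ∀ {V : Type} [Fintype V] [DecidableEq V]
    (G : SimpleGraph V) (X : Finset V) (lev : V → ℕ), (∀ v ∈ X, lev v < M) →
    (∀ v ∈ X, {w | w ∈ X ∧ G.Adj v w ∧ lev w < lev v}.ncard ≤ n) →
    (∀ i, SpreadOn n G (X.filter (fun v => lev v = i)) ∨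
      Pair.PairOn n G (X.filter (fun v => lev v = i)) ∨
      ForestPlusOn n G (X.filter (fun v => lev v = i))) → LosesOn G X s q := by
  intro M
  induction M with
  | zero =>
    intro s
    refine ⟨1, ?_⟩
    intro V _ _ G X lev h1 _ _ g _ _
    exact ⟨fun _ => 0, fun _ => Nat.zero_lt_one, fun v hv => absurd (h1 v hv) (Nat.not_lt_zero _)⟩
  | succ M ih =>
    intro s
    obtain ⟨K₃, hK₃, hT₃⟩ := spreadOn_loses n s
    obtain ⟨K₄, hK₄, hT₄⟩ := Pair.pairOn_loses n s
    obtain ⟨K₅, hK₅, hT₅⟩ := forestPlusOn_loses n s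
    obtain ⟨K₂, hK₂⟩ := ih (s * (max K₃ (max K₄ K₅)) ^ n)
    refine ⟨max (max K₃ (max K₄ K₅)) K₂, ?_⟩
    intro V _ _ G X lev h1 h2 h3
    have hsd : ∀ v, v ∈ X \ X.filter (fun v => lev v = 0) ↔ v ∈ X ∧ lev v ≠ 0 := by
      intro v
      rw [Finset.mem_sdiff, Finset.mem_filter]
      tauto
    have hT : LosesOn G (X.filter (fun v => lev v = 0)) s (max K₃ (max K₄ K₅)) := by
      rcases h3 0 with h | h | h
      · exact losesOn_mono (le_max_left _ _) (hT₃ G _ h)
      · exact losesOn_mono (le_trans (le_max_left _ _) (le_max_right _ _)) (hT₄ G _ h)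
      · exact losesOn_mono (le_trans (le_max_right _ _) (le_max_right _ _)) (hT₅ G _ h)
    refine LosesOn.step (Y := X.filter (fun v => lev v = 0)) (Finset.filter_subset _ _)
      (B := n) ?_ (lt_of_lt_of_le hK₃ (le_max_left _ _)) hT ?_
    · intro x hx
      obtain ⟨hxX, hx0⟩ := (hsd x).1 hx
      refine le_trans (Set.ncard_le_ncard ?_ (Set.toFinite _)) (h2 x hxX)
      rintro w ⟨hw, hxw⟩
      have := Finset.mem_filter.1 hw
      exact ⟨this.1, hxw, by rw [this.2]; omega⟩
    · refine hK₂ G _ (fun v => lev v - 1) ?_ ?_ ?_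
      · intro v hv
        obtain ⟨hvX, hv0⟩ := (hsd v).1 hv
        have := h1 v hvX
        show lev v - 1 < M
        omega
      · intro v hv
        obtain ⟨hvX, hv0⟩ := (hsd v).1 hv
        refine le_trans (Set.ncard_le_ncard ?_ (Set.toFinite _)) (h2 v hvX)
        rintro w ⟨hw, hvw, hlt⟩
        obtain ⟨hwX, hw0⟩ := (hsd w).1 hw
        have hlt' : lev w - 1 < lev v - 1 := hlt
        exact ⟨hwX, hvw, by omega⟩
      · intro i
        have : (X \ X.filter (fun v => lev v = 0)).filter (fun v => lev v - 1 = i) =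
            X.filter (fun v => lev v = i + 1) := by
          ext v
          rw [Finset.mem_filter, hsd, Finset.mem_filter]
          constructor
          · rintro ⟨⟨h4, h5⟩, h6⟩
            exact ⟨h4, by omega⟩
          · rintro ⟨h4, h5⟩
            exact ⟨⟨h4, by omega⟩, by omega⟩
        rw [this]
        exact h3 (i + 1)

/-- The forest plus structure of an induced subgraph. -/
lemma ForestPlus.forestPlusOn {V : Type} [Fintype V] [DecidableEq V] {n : ℕ}
    {G : SimpleGraph V} {lev : V → ℕ} {i : ℕ} (h : ForestPlus n (G.induce {v | lev v = i})) :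
    ForestPlusOn n G (Finset.univ.filter (fun v => lev v = i)) := by
  classical
  obtain ⟨m, β, T, H, hT, hβ, hH, hG⟩ := h
  obtain ⟨rk, hrk, hrk1⟩ := FB.exists_rank T hT
  let em : Fin m ↪ ℕ := ⟨rk, hrk⟩
  have hmap : ∀ a b, (H.map em).Adj a b ↔ ∃ x y, H.Adj x y ∧ rk x = a ∧ rk y = b :=
    fun a b => SimpleGraph.map_adj em H a b
  -- the vertices of the level
  have hlev : ∀ v ∈ (Finset.univ.filter (fun v => lev v = i)), lev v = i :=
    fun v hv => (Finset.mem_filter.1 hv).2
  have hval : ∀ (v : V) (hv : lev v = i),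
      (if h : lev v = i then rk (β ⟨v, h⟩) else 0) = rk (β ⟨v, hv⟩) := by
    intro v hv
    simp only [hv, dif_pos]
  refine ⟨fun v => if h : lev v = i then rk (β ⟨v, h⟩) else 0, H.map em, ?_, ?_, ?_⟩
  · intro j
    by_cases hj : ∃ x, rk x = j
    · obtain ⟨x, rfl⟩ := hj
      refine le_trans ?_ (hβ x)
      rw [← Set.ncard_image_of_injective {v : {v | lev v = i} | β v = x} Subtype.val_injective,
        ← Set.ncard_coe_finset]
      refine Set.ncard_le_ncard ?_ (Set.toFinite _)
      intro v hv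
      have h4 := Finset.mem_filter.1 (Finset.mem_coe.1 hv)
      have hvi := hlev v h4.1
      have h5 : rk (β ⟨v, hvi⟩) = rk x := (hval v hvi).symm.trans h4.2
      exact ⟨⟨v, hvi⟩, hrk h5, rfl⟩
    · refine le_trans (le_of_eq ?_) (Nat.zero_le n)
      rw [Finset.card_eq_zero, Finset.filter_eq_empty_iff]
      intro v hv h4
      exact hj ⟨_, (hval v (hlev v hv)).symm.trans h4⟩
  · intro a A hA
    rcases A.eq_empty_or_nonempty with h0 | ⟨b, hb⟩
    · rw [h0, Finset.card_empty]
      exact Nat.zero_le n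
    · obtain ⟨x, _, _, hxa', _⟩ := (hmap _ _).1 (hA b hb).1
      refine le_trans ?_ (le_of_lt (hH x))
      rw [← Set.ncard_image_of_injective {y | H.Adj x y} hrk, ← Set.ncard_coe_finset]
      refine Set.ncard_le_ncard ?_ (Set.toFinite _)
      intro j hj
      obtain ⟨x', y, hxy, hxa2, hyj⟩ := (hmap _ _).1 (hA j (Finset.mem_coe.1 hj)).1
      have hx' : rk x' = rk x := by rw [hxa2, hxa']
      rw [hrk hx'] at hxy
      exact ⟨y, hxy, hyj⟩
  · have key : ∀ a k, ParOn G (fun v => if h : lev v = i then rk (β ⟨v, h⟩) else 0)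
        (Finset.univ.filter (fun v => lev v = i)) a k → ¬ (H.map em).Adj k a →
        ∃ x y, rk x = a ∧ rk y = k ∧ T.Adj y x ∧ rk x < rk y := by
      rintro a k ⟨hak, v, hv, w, hw, hvw, hva, hwk⟩ hn
      have hvi := hlev v hv
      have hwi := hlev w hw
      have hva' : rk (β ⟨v, hvi⟩) = a := (hval v hvi).symm.trans hva
      have hwk' : rk (β ⟨w, hwi⟩) = k := (hval w hwi).symm.trans hwk
      refine ⟨β ⟨v, hvi⟩, β ⟨w, hwi⟩, hva', hwk', ?_, by rw [hva', hwk']; exact hak⟩
      have hvw' : (G.induce {v | lev v = i}).Adj ⟨v, hvi⟩ ⟨w, hwi⟩ := hvw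
      rcases hG _ _ hvw' with h | h | h
      · exfalso
        rw [h] at hva'
        omega
      · exact h.symm
      · exact absurd ((hmap _ _).2 ⟨_, _, h.symm, hwk', hva'⟩) hn
    intro k a b ha1 ha2 hb1 hb2
    obtain ⟨x, y, hx, hy, hxy, hlt⟩ := key a k ha1 ha2
    obtain ⟨x', y', hx', hy', hxy', hlt'⟩ := key b k hb1 hb2
    have hyy : y' = y := hrk (hy'.trans hy.symm)
    rw [hyy] at hxy' hlt'
    have := (Set.ncard_le_one (Set.toFinite _)).1 (hrk1 y) x ⟨hxy, hlt⟩ x' ⟨hxy', hlt'⟩
    rw [← hx, ← hx', this]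

end Two

/-- With parameter one: the graph is spread. -/
lemma ForestPlus.spread {V : Type} [Fintype V] {G : SimpleGraph V} (h : ForestPlus 1 G) :
    Spread 1 G := by
  classical
  obtain ⟨m, β, T, H, hT, hβ, hH, hG⟩ := h
  obtain ⟨rk, hrk, hrk1⟩ := FB.exists_rank T hT
  have hH0 : ∀ x y, ¬ H.Adj x y := by
    intro x y hxy
    have h1 : {w | H.Adj x w}.ncard = 0 := Nat.lt_one_iff.1 (hH x)
    rw [Set.ncard_eq_zero (Set.toFinite _)] at h1
    have h2 : y ∈ {w | H.Adj x w} := hxy
    rw [h1] at h2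
    exact h2
  have huniq : ∀ a b i, Par G (fun v => rk (β v)) a i → Par G (fun v => rk (β v)) b i → a = b := by
    rintro a b i ⟨ha, v, w, hvw, hva, hwi⟩ ⟨hb, v', w', hvw', hvb, hwi'⟩
    have hva : rk (β v) = a := hva
    have hwi : rk (β w) = i := hwi
    have hvb : rk (β v') = b := hvb
    have hwi' : rk (β w') = i := hwi'
    have hww : β w' = β w := hrk (hwi'.trans hwi.symm)
    have h1 : T.Adj (β v) (β w) := by
      rcases hG v w hvw with h | h | h
      · rw [h] at hva
        omega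
      · exact h
      · exact absurd h (hH0 _ _)
    have h2 : T.Adj (β v') (β w) := by
      rcases hG v' w' hvw' with h | h | h
      · rw [h] at hvb
        omega
      · rw [← hww]
        exact h
      · exact absurd h (hH0 _ _)
    have h3 := (Set.ncard_le_one (Set.toFinite _)).1 (hrk1 (β w)) (β v)
      ⟨h1.symm, by omega⟩ (β v') ⟨h2.symm, by omega⟩
    rw [← hva, ← hvb, h3]
  refine ⟨fun v => rk (β v), fun i => ?_, fun i => ?_, ?_⟩
  · rw [Set.ncard_le_one (Set.toFinite _)]
    intro a ha b hb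
    have h1 : β a = β b := hrk (ha.trans hb.symm)
    exact (Set.ncard_le_one (Set.toFinite _)).1 (hβ (β b)) a h1 b rfl
  · have hfin : {j | Par G (fun v => rk (β v)) j i}.Finite :=
      Set.Finite.subset (Set.finite_Iio i) (fun j hj => hj.1)
    refine le_trans ?_ (by norm_num : (1 : ℕ) ≤ 2)
    rw [Set.ncard_le_one hfin]
    intro a ha b hb
    exact huniq a b i ha hb
  · intro p x y i j h1 h2 h3 h4 h5
    have h6 : x = y := (huniq x p i h2 h1).trans (huniq p y j h3 h4)
    have h7 : ∀ a b, Relation.TransGen (Par G (fun v => rk (β v))) a b → a < b := by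
      intro a b hab
      induction hab with
      | single h => exact h.1
      | tail _ h ih => exact lt_trans ih h.1
    exact absurd (h7 x y h5) (by rw [h6]; exact lt_irrefl _)

/-- The hat guessing number is bounded on layered graphs. -/
theorem hat_mixedLayered (n : ℕ) : ∃ q₀ : ℕ, ∀ (V : Type) [Fintype V] (G : SimpleGraph V),
    MixedLayered n G → ∀ q : ℕ, (∃ s, IsWinning G q s) → q < q₀ := by
  classical
  obtain ⟨q₀, hq₀⟩ := Two.levels4 n n 1
  refine ⟨q₀ + 1, ?_⟩
  rintro V _ G ⟨lev, h1, h2, h3⟩ q hst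
  by_contra hq
  refine Pair.not_winning (q₀ := q₀) ?_ (q := q) (by omega) (by omega) hst
  apply hq₀ G Finset.univ lev (fun v _ => h1 v)
  · intro v _
    refine le_trans (Set.ncard_le_ncard ?_ (Set.toFinite _)) (h2 v)
    rintro w ⟨_, hw⟩
    exact hw
  · intro i
    rcases h3 i with h | h | h
    · exact Or.inl (Two.Spread.spreadOn h)
    · exact Or.inr (Or.inl (Two.PairTree.pairOn h))
    · exact Or.inr (Or.inr (Two.ForestPlus.forestPlusOn h))

/-- The case `n = 1`: the hat guessing number is at most four. -/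
theorem hat_one_mixed (V : Type) [Fintype V] (G : SimpleGraph V) (h : MixedLayered 1 G) (q : ℕ)
    (hst : ∃ s, IsWinning G q s) : q < 5 := by
  obtain ⟨lev, h1, h2, h3⟩ := h
  refine hat_one' V G ⟨lev, h1, h2, fun i => ?_⟩ q hst
  rcases h3 i with h | h | h
  · exact Or.inl h
  · exact Or.inr h
  · exact Or.inl h.spread

/-- The hat guessing number is bounded on layered graphs, and the bound is `HG ≤ 4` for the
parameter `n = 1`. -/
theorem hat_mixedLayered' : ∃ q₀ : ℕ → ℕ, q₀ 1 = 5 ∧
    ∀ (n : ℕ) (V : Type) [Fintype V] (G : SimpleGraph V), MixedLayered n G →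
      ∀ q : ℕ, (∃ s, IsWinning G q s) → q < q₀ n := by
  choose f hf using hat_mixedLayered
  refine ⟨fun n => if n = 1 then 5 else f n, rfl, fun n V _ G hG q hst => ?_⟩
  by_cases hn : n = 1
  · subst hn
    exact hat_one_mixed V G hG q hst
  · simp only [hn, if_false]
    exact hf n V G hG q hst

end Pool.Agent.Lib.MP_994fee_co
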